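import Mathlib
import Pool.Agent.H34.L.H931R3.Bal1

/-! Averages and probabilities in sums of posets. -/

open Finset

namespace Pool.Agent.H931R3.Bal

open Pool.Agent.H13R3.WB

lemma LEn_nonempty {P : Type} [Fintype P] [PartialOrder P] {n : ℕ} (hn : Fintype.card P = n) :
    Nonempty (LEn P n) := by
  let _ : Fintype (LinearExtension P) := (inferInstance : Fintype P)
  have hc : Fintype.card (LinearExtension P) = n := hn
  let μ := monoEquivOfFin (LinearExtension P) hc
  refine ⟨⟨(μ.symm.toEquiv : P ≃ Fin n), fun x y h => ?_⟩⟩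
  have : toLinearExtension x ≤ toLinearExtension y := toLinearExtension.monotone h
  exact μ.symm.monotone this

lemma card_ne {P : Type} [Fintype P] [PartialOrder P] {n : ℕ} (hn : Fintype.card P = n) :
    (Fintype.card (LEn P n) : ℝ) ≠ 0 := by
  have := LEn_nonempty hn
  exact_mod_cast Fintype.card_ne_zero

section lex

variable {P Q : Type} [Fintype P] [Fintype Q] [PartialOrder P] [PartialOrder Q] {n m : ℕ}

lemma card_lex (hn : Fintype.card P = n) (hm : Fintype.card Q = m) :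
    Fintype.card (LEn (P ⊕ₗ Q) (n + m)) = Fintype.card (LEn P n) * Fintype.card (LEn Q m) := by
  rw [← Fintype.card_prod]
  exact (Fintype.card_of_bijective (lexF_bij hn hm)).symm

lemma sum_lex (hn : Fintype.card P = n) (hm : Fintype.card Q = m)
    (F : LEn (P ⊕ₗ Q) (n + m) → ℝ) :
    ∑ f, F f = ∑ σ : LEn P n, ∑ τ : LEn Q m, F (lexF σ τ) := by
  rw [← Fintype.sum_prod_type']
  exact ((lexF_bij hn hm).sum_comp F).symm

lemma avg_lex_inl (hn : Fintype.card P = n) (hm : Fintype.card Q = m) (x : P) (φ : ℕ → ℝ) :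
    avg (P ⊕ₗ Q) (n + m) (toLex (Sum.inl x)) φ = avg P n x φ := by
  unfold avg
  rw [sum_lex hn hm, card_lex hn hm]
  have h1 := card_ne hn
  have h2 := card_ne hm
  simp_rw [lexF_inl]
  rw [Finset.sum_congr rfl (fun σ _ => Finset.sum_const _)]
  rw [← Finset.smul_sum]
  simp only [Finset.card_univ, nsmul_eq_mul, Nat.cast_mul]
  field_simp

lemma avg_lex_inr (hn : Fintype.card P = n) (hm : Fintype.card Q = m) (y : Q) (φ : ℕ → ℝ) :
    avg (P ⊕ₗ Q) (n + m) (toLex (Sum.inr y)) φ = avg Q m y (fun i => φ (n + i)) := by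
  unfold avg
  rw [sum_lex hn hm, card_lex hn hm]
  have h1 := card_ne hn
  have h2 := card_ne hm
  simp_rw [lexF_inr]
  rw [Finset.sum_const]
  simp only [Finset.card_univ, nsmul_eq_mul, Nat.cast_mul]
  field_simp

lemma pr_lex_inl (hn : Fintype.card P = n) (hm : Fintype.card Q = m) (x x' : P) :
    pr (P ⊕ₗ Q) (n + m) (toLex (Sum.inl x)) (toLex (Sum.inl x')) = pr P n x x' := by
  unfold pr
  rw [sum_lex hn hm, card_lex hn hm]
  have h1 := card_ne hn
  have h2 := card_ne hm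
  have h3 : ∀ (σ : LEn P n) (τ : LEn Q m), ((lexF σ τ).1 (toLex (Sum.inl x)) <
      (lexF σ τ).1 (toLex (Sum.inl x'))) ↔ σ.1 x < σ.1 x' := by
    intro σ τ
    rw [Fin.lt_def, Fin.lt_def, lexF_inl, lexF_inl]
  simp_rw [h3]
  rw [Finset.sum_congr rfl (fun σ _ => Finset.sum_const _)]
  rw [← Finset.smul_sum]
  simp only [Finset.card_univ, nsmul_eq_mul, Nat.cast_mul]
  field_simp

lemma pr_lex_inr (hn : Fintype.card P = n) (hm : Fintype.card Q = m) (y y' : Q) :
    pr (P ⊕ₗ Q) (n + m) (toLex (Sum.inr y)) (toLex (Sum.inr y')) = pr Q m y y' := by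
  unfold pr
  rw [sum_lex hn hm, card_lex hn hm]
  have h1 := card_ne hn
  have h2 := card_ne hm
  have h3 : ∀ (σ : LEn P n) (τ : LEn Q m), ((lexF σ τ).1 (toLex (Sum.inr y)) <
      (lexF σ τ).1 (toLex (Sum.inr y'))) ↔ τ.1 y < τ.1 y' := by
    intro σ τ
    rw [Fin.lt_def, Fin.lt_def, lexF_inr, lexF_inr]
    omega
  simp_rw [h3]
  rw [Finset.sum_const]
  simp only [Finset.card_univ, nsmul_eq_mul, Nat.cast_mul]
  field_simp

end lex

section disj

variable {P Q : Type} [PartialOrder P] [PartialOrder Q] {n m : ℕ}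

/-- linear extensions of a disjoint sum -/
def sumF (σ : LEn P n) (τ : LEn Q m) (s : LEn (Fin n ⊕ Fin m) (n + m)) : LEn (P ⊕ Q) (n + m) :=
  ⟨(Equiv.sumCongr σ.1 τ.1).trans s.1, by
    intro a b h
    rcases a with a | a <;> rcases b with b | b
    · exact s.2 (Sum.inl_le_inl_iff.2 (σ.2 (Sum.inl_le_inl_iff.1 h)))
    · exact absurd h Sum.not_inl_le_inr
    · exact absurd h Sum.not_inr_le_inl
    · exact s.2 (Sum.inr_le_inr_iff.2 (τ.2 (Sum.inr_le_inr_iff.1 h)))⟩

lemma sumF_inl (σ : LEn P n) (τ : LEn Q m) (s : LEn (Fin n ⊕ Fin m) (n + m)) (x : P) :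
    (sumF σ τ s).1 (Sum.inl x) = s.1 (Sum.inl (σ.1 x)) := rfl

lemma sumF_inr (σ : LEn P n) (τ : LEn Q m) (s : LEn (Fin n ⊕ Fin m) (n + m)) (y : Q) :
    (sumF σ τ s).1 (Sum.inr y) = s.1 (Sum.inr (τ.1 y)) := rfl

lemma s_inl_lt (s : LEn (Fin n ⊕ Fin m) (n + m)) (i j : Fin n) :
    s.1 (Sum.inl i) < s.1 (Sum.inl j) ↔ i < j := by
  constructor
  · intro h
    by_contra hc
    exact absurd h (not_lt.2 (s.2 (Sum.inl_le_inl_iff.2 (not_lt.1 hc))))
  · intro h
    exact lt_of_mono s.2 (Sum.inl_lt_inl_iff.2 h)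

lemma s_inr_lt (s : LEn (Fin n ⊕ Fin m) (n + m)) (i j : Fin m) :
    s.1 (Sum.inr i) < s.1 (Sum.inr j) ↔ i < j := by
  constructor
  · intro h
    by_contra hc
    exact absurd h (not_lt.2 (s.2 (Sum.inr_le_inr_iff.2 (not_lt.1 hc))))
  · intro h
    exact lt_of_mono s.2 (Sum.inr_lt_inr_iff.2 h)

lemma sumF_bij [Fintype P] [Fintype Q] (hn : Fintype.card P = n) (hm : Fintype.card Q = m) :
    Function.Bijective (fun z : LEn P n × LEn Q m × LEn (Fin n ⊕ Fin m) (n + m) =>
      sumF z.1 z.2.1 z.2.2) := by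
  constructor
  · rintro ⟨σ, τ, s⟩ ⟨σ', τ', s'⟩ h
    have h1 : ∀ z, (sumF σ τ s).1 z = (sumF σ' τ' s').1 z := fun z => by
      have := congrArg Subtype.val h
      exact congrFun (congrArg (fun e : (P ⊕ Q) ≃ Fin (n + m) => (e : (P ⊕ Q) → Fin (n + m))) this) z
    have e1 : σ.1 = σ'.1 := rank_unique _ _ fun a b => by
      rw [← s_inl_lt s, ← s_inl_lt s', ← sumF_inl σ τ s, ← sumF_inl σ τ s, ← sumF_inl σ' τ' s',
        ← sumF_inl σ' τ' s', h1, h1]
    have e2 : τ.1 = τ'.1 := rank_unique _ _ fun a b => by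
      rw [← s_inr_lt s, ← s_inr_lt s', ← sumF_inr σ τ s, ← sumF_inr σ τ s, ← sumF_inr σ' τ' s',
        ← sumF_inr σ' τ' s', h1, h1]
    have e1' : σ = σ' := Subtype.ext e1
    have e2' : τ = τ' := Subtype.ext e2
    subst e1' e2'
    have e3 : s = s' := by
      apply Subtype.ext
      apply Equiv.ext
      intro z
      rcases z with i | j
      · have := h1 (Sum.inl (σ.1.symm i))
        rw [sumF_inl, sumF_inl] at this
        simpa using this
      · have := h1 (Sum.inr (τ.1.symm j))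
        rw [sumF_inr, sumF_inr] at this
        simpa using this
    subst e3
    rfl
  · intro f
    obtain ⟨σ, hσ⟩ := exists_rank (fun x : P => f.1 (Sum.inl x))
      (fun a b h => Sum.inl_injective (f.1.injective h)) hn
    obtain ⟨τ, hτ⟩ := exists_rank (fun x : Q => f.1 (Sum.inr x))
      (fun a b h => Sum.inr_injective (f.1.injective h)) hm
    have hσm : Monotone σ := mono_of_lt fun x y h => (hσ x y).2
      (lt_of_mono f.2 (Sum.inl_lt_inl_iff.2 h))
    have hτm : Monotone τ := mono_of_lt fun x y h => (hτ x y).2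
      (lt_of_mono f.2 (Sum.inr_lt_inr_iff.2 h))
    have hs : Monotone ((Equiv.sumCongr σ τ).symm.trans f.1) := by
      apply mono_of_lt
      intro a b h
      rcases a with a | a <;> rcases b with b | b
      · have h' : a < b := Sum.inl_lt_inl_iff.1 h
        have := (hσ (σ.symm a) (σ.symm b)).1 (by simpa using h')
        simpa using this
      · exact absurd h Sum.not_inl_lt_inr
      · exact absurd h Sum.not_inr_lt_inl
      · have h' : a < b := Sum.inr_lt_inr_iff.1 h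
        have := (hτ (τ.symm a) (τ.symm b)).1 (by simpa using h')
        simpa using this
    refine ⟨(⟨σ, hσm⟩, ⟨τ, hτm⟩, ⟨_, hs⟩), Subtype.ext (Equiv.ext fun z => ?_)⟩
    rcases z with z | z
    · show f.1 ((Equiv.sumCongr σ τ).symm (Sum.inl (σ z))) = _
      simp
    · show f.1 ((Equiv.sumCongr σ τ).symm (Sum.inr (τ z))) = _
      simp

variable [Fintype P] [Fintype Q]

lemma card_disj (hn : Fintype.card P = n) (hm : Fintype.card Q = m) :
    Fintype.card (LEn (P ⊕ Q) (n + m)) = Fintype.card (LEn P n) * (Fintype.card (LEn Q m) *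
      Fintype.card (LEn (Fin n ⊕ Fin m) (n + m))) := by
  rw [← Fintype.card_prod, ← Fintype.card_prod]
  exact (Fintype.card_of_bijective (sumF_bij hn hm)).symm

lemma sum_disj (hn : Fintype.card P = n) (hm : Fintype.card Q = m)
    (F : LEn (P ⊕ Q) (n + m) → ℝ) :
    ∑ f, F f = ∑ σ : LEn P n, ∑ τ : LEn Q m, ∑ s : LEn (Fin n ⊕ Fin m) (n + m),
      F (sumF σ τ s) := by
  have := (sumF_bij (P := P) (Q := Q) hn hm).sum_comp F
  rw [← this, Fintype.sum_prod_type]
  apply Finset.sum_congr rfl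
  intro σ _
  rw [Fintype.sum_prod_type]

lemma pr_disj_inl (hn : Fintype.card P = n) (hm : Fintype.card Q = m) (x x' : P) :
    pr (P ⊕ Q) (n + m) (Sum.inl x) (Sum.inl x') = pr P n x x' := by
  unfold pr
  rw [sum_disj hn hm, card_disj hn hm]
  have h1 := card_ne hn
  have h2 := card_ne hm
  have h4 : (Fintype.card (LEn (Fin n ⊕ Fin m) (n + m)) : ℝ) ≠ 0 := card_ne (by simp)
  have h3 : ∀ (σ : LEn P n) (τ : LEn Q m) (s : LEn (Fin n ⊕ Fin m) (n + m)),
      ((sumF σ τ s).1 (Sum.inl x) < (sumF σ τ s).1 (Sum.inl x')) ↔ σ.1 x < σ.1 x' := by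
    intro σ τ s
    rw [sumF_inl, sumF_inl, s_inl_lt]
  simp_rw [h3]
  simp only [Finset.sum_const, Finset.card_univ, nsmul_eq_mul, Nat.cast_mul]
  rw [← Finset.mul_sum, ← Finset.mul_sum]
  field_simp

lemma pr_disj_inr (hn : Fintype.card P = n) (hm : Fintype.card Q = m) (y y' : Q) :
    pr (P ⊕ Q) (n + m) (Sum.inr y) (Sum.inr y') = pr Q m y y' := by
  unfold pr
  rw [sum_disj hn hm, card_disj hn hm]
  have h1 := card_ne hn
  have h2 := card_ne hm
  have h4 : (Fintype.card (LEn (Fin n ⊕ Fin m) (n + m)) : ℝ) ≠ 0 := card_ne (by simp)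
  have h3 : ∀ (σ : LEn P n) (τ : LEn Q m) (s : LEn (Fin n ⊕ Fin m) (n + m)),
      ((sumF σ τ s).1 (Sum.inr y) < (sumF σ τ s).1 (Sum.inr y')) ↔ τ.1 y < τ.1 y' := by
    intro σ τ s
    rw [sumF_inr, sumF_inr, s_inr_lt]
  simp_rw [h3]
  simp only [Finset.sum_const, Finset.card_univ, nsmul_eq_mul, Nat.cast_mul]
  rw [← Finset.mul_sum]
  field_simp

/-- probability that the `i`-th element of the first chain precedes the `j`-th element of the
second one (positions counted from `0`) -/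
noncomputable def FF (n m i j : ℕ) : ℝ :=
  (∑ s : LEn (Fin n ⊕ Fin m) (n + m), if (∀ (hi : i < n) (hj : j < m),
    s.1 (Sum.inl ⟨i, hi⟩) < s.1 (Sum.inr ⟨j, hj⟩)) then (1 : ℝ) else 0) /
    Fintype.card (LEn (Fin n ⊕ Fin m) (n + m))

lemma pr_disj_cross (hn : Fintype.card P = n) (hm : Fintype.card Q = m) (x : P) (y : Q) :
    pr (P ⊕ Q) (n + m) (Sum.inl x) (Sum.inr y) =
      avg P n x (fun i => avg Q m y (fun j => FF n m i j)) := by
  unfold pr avg FF
  rw [sum_disj hn hm, card_disj hn hm]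
  have h1 := card_ne hn
  have h2 := card_ne hm
  have h4 : (Fintype.card (LEn (Fin n ⊕ Fin m) (n + m)) : ℝ) ≠ 0 := card_ne (by simp)
  have h3 : ∀ (σ : LEn P n) (τ : LEn Q m) (s : LEn (Fin n ⊕ Fin m) (n + m)),
      ((sumF σ τ s).1 (Sum.inl x) < (sumF σ τ s).1 (Sum.inr y)) ↔
      (∀ (hi : (σ.1 x : ℕ) < n) (hj : (τ.1 y : ℕ) < m),
        s.1 (Sum.inl ⟨σ.1 x, hi⟩) < s.1 (Sum.inr ⟨τ.1 y, hj⟩)) := by
    intro σ τ s
    rw [sumF_inl, sumF_inr]
    exact ⟨fun h _ _ => h, fun h => h (σ.1 x).2 (τ.1 y).2⟩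
  simp_rw [h3]
  simp_rw [← Finset.sum_div]
  push_cast
  rw [div_div, div_div]
  congr 1
  ring

end disj

end Pool.Agent.H931R3.Bal
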