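import Mathlib
import Pool.Agent.H34.L.H931R3.Bal4

/-! Crossing lemma for posets of the class `𝒟`. -/

open Finset

namespace Pool.Agent.H931R3.Bal

open Pool.Agent.H13R3.WB

/-- evaluation of a code: `(s,0)` is the element of rank `s`, and `(s,1)`, `(s,2)`, `(s,3)` are the
three elements of a three-element block starting at rank `s` -/
noncomputable def ev (cd : ℕ × ℕ) (φ : ℕ → ℝ) : ℝ :=
  (((3 - cd.2 : ℕ) : ℝ) * φ cd.1 + ((min cd.2 1 : ℕ) : ℝ) * φ (cd.1 + 1) +
    ((cd.2 - 1 : ℕ) : ℝ) * φ (cd.1 + 2)) / 3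

lemma ev0 (s : ℕ) (φ : ℕ → ℝ) : ev (s, 0) φ = φ s := by simp [ev]
lemma ev1 (s : ℕ) (φ : ℕ → ℝ) : ev (s, 1) φ = (2 * φ s + φ (s + 1)) / 3 := by simp [ev]
lemma ev2 (s : ℕ) (φ : ℕ → ℝ) : ev (s, 2) φ = (φ s + φ (s + 1) + φ (s + 2)) / 3 := by simp [ev]
lemma ev3 (s : ℕ) (φ : ℕ → ℝ) : ev (s, 3) φ = (φ (s + 1) + 2 * φ (s + 2)) / 3 := by simp [ev]

/-- codes of the elements -/
def codes : ℕ → List Bool → List (ℕ × ℕ)
  | _, [] => []
  | s, false :: w => (s, 0) :: codes (s + 1) w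
  | s, true :: w => (s, 1) :: (s, 2) :: (s, 3) :: codes (s + 3) w

lemma codes_append (w v : List Bool) (s : ℕ) :
    codes s (w ++ v) = codes s w ++ codes (s + len w) v := by
  induction w generalizing s with
  | nil => simp [len, codes]
  | cons b w ih =>
    cases b
    · simp only [List.cons_append, codes, len, ih]
      rw [show s + 1 + len w = s + (1 + len w) by ring]
    · simp only [List.cons_append, codes, len, ih]
      rw [show s + 3 + len w = s + (3 + len w) by ring]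

/-- elements of a poset of the class `𝒟` realise all the codes of a list of blocks -/
lemma blocksC {P : Type} [PartialOrder P] (h : InD P) :
    ∃ w : List Bool, w ≠ [] ∧ Nat.card P = len w ∧ Finite P ∧ ∀ (s : ℕ),
      ∀ cd ∈ codes s w, ∃ x : P, ∀ φ : ℕ → ℝ, avg P (len w) x (fun i => φ (s + i)) = ev cd φ := by
  induction h with
  | one P e =>
    obtain ⟨e⟩ := e
    refine ⟨[false], by simp, ?_, Finite.of_equiv _ e.symm.toEquiv, ?_⟩
    · rw [Nat.card_congr e.toEquiv]; simp [len]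
    · intro s v hv
      simp only [codes, List.mem_singleton] at hv
      refine ⟨e.symm 0, fun φ => ?_⟩
      rw [show len [false] = 1 by rfl, avg_iso e.symm 1 0, avg_one, hv, ev0]
      simp
  | three P e =>
    obtain ⟨e⟩ := e
    refine ⟨[true], by simp, ?_, Finite.of_equiv _ e.symm.toEquiv, ?_⟩
    · rw [Nat.card_congr e.toEquiv]; simp [len]
    · intro s v hv
      simp only [codes, List.mem_cons, List.not_mem_nil, or_false] at hv
      rcases hv with rfl | rfl | rfl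
      · refine ⟨e.symm (Sum.inl 0), fun φ => ?_⟩
        rw [show len [true] = 3 by rfl, avg_iso e.symm 3 (Sum.inl 0), avgE, ev1]
        simp [tab]
      · refine ⟨e.symm (Sum.inr 0), fun φ => ?_⟩
        rw [show len [true] = 3 by rfl, avg_iso e.symm 3 (Sum.inr 0), avgE, ev2]
        simp [tab]
      · refine ⟨e.symm (Sum.inl 1), fun φ => ?_⟩
        rw [show len [true] = 3 by rfl, avg_iso e.symm 3 (Sum.inl 1), avgE, ev3]
        simp [tab]
  | sum P Q R hP hQ e ihP ihQ =>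
    obtain ⟨e⟩ := e
    obtain ⟨w, hw, hcw, hfw, hvw⟩ := ihP
    obtain ⟨v, hv, hcv, hfv, hvv⟩ := ihQ
    have := Fintype.ofFinite P
    have := Fintype.ofFinite Q
    have h1 : Fintype.card P = len w := by rw [← hcw, Nat.card_eq_fintype_card]
    have h2 : Fintype.card Q = len v := by rw [← hcv, Nat.card_eq_fintype_card]
    have hfs : Finite (P ⊕ₗ Q) := (inferInstance : Finite (P ⊕ Q))
    refine ⟨w ++ v, by simp [hw], ?_, Finite.of_equiv _ e.symm.toEquiv, ?_⟩
    · rw [Nat.card_congr e.toEquiv, len_append, ← hcw, ← hcv]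
      exact Nat.card_sum
    · intro s a ha
      rw [codes_append, List.mem_append] at ha
      rw [len_append]
      rcases ha with ha | ha
      · obtain ⟨x, hx⟩ := hvw s a ha
        refine ⟨e.symm (toLex (Sum.inl x)), fun φ => ?_⟩
        rw [avg_iso e.symm, avg_lex_inl h1 h2, hx]
      · obtain ⟨y, hy⟩ := hvv (s + len w) a ha
        refine ⟨e.symm (toLex (Sum.inr y)), fun φ => ?_⟩
        rw [avg_iso e.symm, avg_lex_inr h1 h2, ← hy]
        congr 1
        funext i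
        rw [add_assoc]

/-- no jump over the interval `[8/21, 13/21]` -/
structure UC (G : ℕ → ℝ) (n : ℕ) : Prop where
  h11 : ∀ i, i < n → 13 / 21 < G i → 8 / 21 ≤ G (i + 1)
  h1E : ∀ i, i + 3 ≤ n → 13 / 21 < G i → 8 / 21 ≤ (2 * G (i + 1) + G (i + 2)) / 3
  hE1 : ∀ i, i + 3 < n → 13 / 21 < (G (i + 2) + 2 * G (i + 3)) / 3 → 8 / 21 ≤ G (i + 4)
  hEE : ∀ i, i + 6 ≤ n → 13 / 21 < (G (i + 2) + 2 * G (i + 3)) / 3 →
    8 / 21 ≤ (2 * G (i + 4) + G (i + 5)) / 3
  e1 : ∀ i, i = n → G i ≤ 13 / 21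
  eE : ∀ i, i + 3 = n → (G (i + 2) + 2 * G (i + 3)) / 3 ≤ 13 / 21
  in1 : ∀ i, i + 3 ≤ n → 13 / 21 < (2 * G (i + 1) + G (i + 2)) / 3 →
    8 / 21 ≤ (G (i + 1) + G (i + 2) + G (i + 3)) / 3
  in2 : ∀ i, i + 3 ≤ n → 13 / 21 < (G (i + 1) + G (i + 2) + G (i + 3)) / 3 →
    8 / 21 ≤ (G (i + 2) + 2 * G (i + 3)) / 3

lemma U_aux {G : ℕ → ℝ} {n : ℕ} (h : UC G n) : ∀ (w : List Bool) (s : ℕ), s + len w = n →
    (13 / 21 < G s ∨ ∃ t, s = t + 3 ∧ 13 / 21 < (G (t + 2) + 2 * G (t + 3)) / 3) →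
    ∃ cd ∈ codes s w, 8 / 21 ≤ ev cd (fun i => G (i + 1)) ∧
      ev cd (fun i => G (i + 1)) ≤ 13 / 21 := by
  intro w
  induction w with
  | nil =>
    intro s hs hp
    simp only [len, add_zero] at hs
    rcases hp with hp | ⟨t, ht, hp⟩
    · exact absurd (h.e1 s hs) (not_le.2 hp)
    · exact absurd (h.eE t (by omega)) (not_le.2 hp)
  | cons b w ih =>
    intro s hs hp
    cases b
    · simp only [len] at hs
      have h1 : 8 / 21 ≤ G (s + 1) := by
        rcases hp with hp | ⟨t, ht, hp⟩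
        · exact h.h11 s (by omega) hp
        · rw [ht]; exact h.hE1 t (by omega) hp
      by_cases h2 : G (s + 1) ≤ 13 / 21
      · refine ⟨(s, 0), by simp [codes], ?_⟩
        rw [ev0]
        exact ⟨h1, h2⟩
      · obtain ⟨cd, hcd, hv⟩ := ih (s + 1) (by omega) (Or.inl (not_le.1 h2))
        exact ⟨cd, by simp [codes, hcd], hv⟩
    · simp only [len] at hs
      have h1 : 8 / 21 ≤ (2 * G (s + 1) + G (s + 2)) / 3 := by
        rcases hp with hp | ⟨t, ht, hp⟩
        · exact h.h1E s (by omega) hp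
        · rw [ht]; exact h.hEE t (by omega) hp
      by_cases h2 : (2 * G (s + 1) + G (s + 2)) / 3 ≤ 13 / 21
      · refine ⟨(s, 1), by simp [codes], ?_⟩
        rw [ev1]
        exact ⟨h1, h2⟩
      have h3 := h.in1 s (by omega) (not_le.1 h2)
      by_cases h4 : (G (s + 1) + G (s + 2) + G (s + 3)) / 3 ≤ 13 / 21
      · refine ⟨(s, 2), by simp [codes], ?_⟩
        rw [ev2]
        exact ⟨h3, h4⟩
      have h5 := h.in2 s (by omega) (not_le.1 h4)
      by_cases h6 : (G (s + 2) + 2 * G (s + 3)) / 3 ≤ 13 / 21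
      · refine ⟨(s, 3), by simp [codes], ?_⟩
        rw [ev3]
        exact ⟨h5, h6⟩
      obtain ⟨cd, hcd, hv⟩ := ih (s + 3) (by omega) (Or.inr ⟨s, rfl, not_le.1 h6⟩)
      exact ⟨cd, by simp [codes, hcd], hv⟩

lemma UC_of_sup {G : ℕ → ℝ} {n : ℕ} (hn : G (n + 1) = 0)
    (hs : ∀ i ≤ n, G i - G (i + 1) ≤ 1 / 7) (hd : ∀ i ≤ n, 0 ≤ G i - G (i + 1)) : UC G n where
  h11 i hi h := by have := hs i (by omega); linarith
  h1E i hi h := by
    have h1 := hs i (by omega)
    have h2 := hs (i + 1) (by omega)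
    have e : i + 1 + 1 = i + 2 := rfl
    rw [e] at h2
    linarith
  hE1 i hi h := by
    have h1 := hs (i + 2) (by omega)
    have h2 := hs (i + 3) (by omega)
    have e : i + 2 + 1 = i + 3 := rfl
    have e' : i + 3 + 1 = i + 4 := rfl
    rw [e] at h1
    rw [e'] at h2
    linarith
  hEE i hi h := by
    have h1 := hs (i + 2) (by omega)
    have h2 := hs (i + 3) (by omega)
    have h3 := hs (i + 4) (by omega)
    have e : i + 2 + 1 = i + 3 := rfl
    have e' : i + 3 + 1 = i + 4 := rfl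
    have e'' : i + 4 + 1 = i + 5 := rfl
    rw [e] at h1
    rw [e'] at h2
    rw [e''] at h3
    linarith
  e1 i hi := by
    subst hi
    have := hs i le_rfl
    rw [hn] at this
    linarith
  eE i hi := by
    subst hi
    have h1 := hs (i + 2) (by omega)
    have h2 := hs (i + 3) (by omega)
    have e : i + 2 + 1 = i + 3 := rfl
    rw [e] at h1
    rw [hn] at h2
    linarith
  in1 i hi h := by
    have h2 := hs (i + 1) (by omega)
    have h3 := hs (i + 2) (by omega)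
    have e : i + 1 + 1 = i + 2 := rfl
    have e' : i + 2 + 1 = i + 3 := rfl
    rw [e] at h2
    rw [e'] at h3
    linarith
  in2 i hi h := by
    have h2 := hs (i + 1) (by omega)
    have h3 := hs (i + 2) (by omega)
    have e : i + 1 + 1 = i + 2 := rfl
    have e' : i + 2 + 1 = i + 3 := rfl
    rw [e] at h2
    rw [e'] at h3
    linarith

/-- integer version of `UC` at one position -/
def UCi (g : ℕ → ℕ) (T n i : ℕ) : Bool :=
    (decide (n ≤ i) || decide (21 * g i ≤ 13 * T) || decide (8 * T ≤ 21 * g (i + 1))) &&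
    (decide (n < i + 3) || decide (21 * g i ≤ 13 * T) ||
      decide (24 * T ≤ 21 * (2 * g (i + 1) + g (i + 2)))) &&
    (decide (n ≤ i + 3) || decide (21 * (g (i + 2) + 2 * g (i + 3)) ≤ 39 * T) ||
      decide (8 * T ≤ 21 * g (i + 4))) &&
    (decide (n < i + 6) || decide (21 * (g (i + 2) + 2 * g (i + 3)) ≤ 39 * T) ||
      decide (24 * T ≤ 21 * (2 * g (i + 4) + g (i + 5)))) &&
    (decide (i ≠ n) || decide (21 * g i ≤ 13 * T)) &&
    (decide (i + 3 ≠ n) || decide (21 * (g (i + 2) + 2 * g (i + 3)) ≤ 39 * T)) &&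
    (decide (n < i + 3) || decide (21 * (2 * g (i + 1) + g (i + 2)) ≤ 39 * T) ||
      decide (24 * T ≤ 21 * (g (i + 1) + g (i + 2) + g (i + 3)))) &&
    (decide (n < i + 3) || decide (21 * (g (i + 1) + g (i + 2) + g (i + 3)) ≤ 39 * T) ||
      decide (24 * T ≤ 21 * (g (i + 2) + 2 * g (i + 3))))

/-- integer version of `UC` -/
def UCb (g : ℕ → ℕ) (T n : ℕ) : Bool := (List.range (n + 1)).all fun i => UCi g T n i

/-- integer version of `UC` -/
def UCN (g : ℕ → ℕ) (T n : ℕ) : Prop :=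
  ∀ i ≤ n,
    (i < n → 13 * T < 21 * g i → 8 * T ≤ 21 * g (i + 1)) ∧
    (i + 3 ≤ n → 13 * T < 21 * g i → 24 * T ≤ 21 * (2 * g (i + 1) + g (i + 2))) ∧
    (i + 3 < n → 39 * T < 21 * (g (i + 2) + 2 * g (i + 3)) → 8 * T ≤ 21 * g (i + 4)) ∧
    (i + 6 ≤ n → 39 * T < 21 * (g (i + 2) + 2 * g (i + 3)) →
      24 * T ≤ 21 * (2 * g (i + 4) + g (i + 5))) ∧
    (i = n → 21 * g i ≤ 13 * T) ∧
    (i + 3 = n → 21 * (g (i + 2) + 2 * g (i + 3)) ≤ 39 * T) ∧
    (i + 3 ≤ n → 39 * T < 21 * (2 * g (i + 1) + g (i + 2)) →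
      24 * T ≤ 21 * (g (i + 1) + g (i + 2) + g (i + 3))) ∧
    (i + 3 ≤ n → 39 * T < 21 * (g (i + 1) + g (i + 2) + g (i + 3)) →
      24 * T ≤ 21 * (g (i + 2) + 2 * g (i + 3)))

lemma UCN_of_UCb {g : ℕ → ℕ} {T n : ℕ} (h : UCb g T n = true) : UCN g T n := by
  intro i hi
  unfold UCb at h
  rw [List.all_eq_true] at h
  have h1 := h i (List.mem_range.2 (by omega))
  simp only [UCi, Bool.and_eq_true, Bool.or_eq_true, decide_eq_true_eq] at h1
  omega

lemma UC_of_UCN {g : ℕ → ℕ} {T n : ℕ} (hT : 0 < T) (h : UCN g T n) :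
    UC (fun i => (g i : ℝ) / T) n := by
  have hT' : (0 : ℝ) < T := by exact_mod_cast hT
  have hT0 : (T : ℝ) ≠ 0 := hT'.ne'
  refine ⟨?_, ?_, ?_, ?_, ?_, ?_, ?_, ?_⟩
  · intro i hi hh
    have := (h i (by omega)).1 hi (by
      rw [lt_div_iff₀ hT'] at hh
      have : (13 * T : ℝ) < 21 * g i := by linarith
      exact_mod_cast this)
    have h2 : (8 * T : ℝ) ≤ 21 * g (i + 1) := by exact_mod_cast this
    rw [le_div_iff₀ hT']
    linarith
  · intro i hi hh
    have := (h i (by omega)).2.1 hi (by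
      rw [lt_div_iff₀ hT'] at hh
      have : (13 * T : ℝ) < 21 * g i := by linarith
      exact_mod_cast this)
    have h2 : (24 * T : ℝ) ≤ 21 * (2 * g (i + 1) + g (i + 2)) := by exact_mod_cast this
    have e : (2 * ((g (i + 1) : ℝ) / T) + (g (i + 2) : ℝ) / T) / 3 =
        ((2 * g (i + 1) + g (i + 2)) / 3) / T := by field_simp
    rw [e, le_div_iff₀ hT']
    linarith
  · intro i hi hh
    have e : ((g (i + 2) : ℝ) / T + 2 * ((g (i + 3) : ℝ) / T)) / 3 =
        ((g (i + 2) + 2 * g (i + 3)) / 3) / T := by field_simp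
    rw [e, lt_div_iff₀ hT'] at hh
    have := (h i (by omega)).2.2.1 hi (by
      have : (39 * T : ℝ) < 21 * (g (i + 2) + 2 * g (i + 3)) := by linarith
      exact_mod_cast this)
    have h2 : (8 * T : ℝ) ≤ 21 * g (i + 4) := by exact_mod_cast this
    rw [le_div_iff₀ hT']
    linarith
  · intro i hi hh
    have e : ((g (i + 2) : ℝ) / T + 2 * ((g (i + 3) : ℝ) / T)) / 3 =
        ((g (i + 2) + 2 * g (i + 3)) / 3) / T := by field_simp
    rw [e, lt_div_iff₀ hT'] at hh
    have := (h i (by omega)).2.2.2.1 hi (by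
      have : (39 * T : ℝ) < 21 * (g (i + 2) + 2 * g (i + 3)) := by linarith
      exact_mod_cast this)
    have h2 : (24 * T : ℝ) ≤ 21 * (2 * g (i + 4) + g (i + 5)) := by exact_mod_cast this
    have e : (2 * ((g (i + 4) : ℝ) / T) + (g (i + 5) : ℝ) / T) / 3 =
        ((2 * g (i + 4) + g (i + 5)) / 3) / T := by field_simp
    rw [e, le_div_iff₀ hT']
    linarith
  · intro i hi
    have := (h i (by omega)).2.2.2.2.1 hi
    have h2 : (21 * g i : ℝ) ≤ 13 * T := by exact_mod_cast this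
    rw [div_le_iff₀ hT']
    linarith
  · intro i hi
    have := (h i (by omega)).2.2.2.2.2.1 hi
    have h2 : (21 * (g (i + 2) + 2 * g (i + 3)) : ℝ) ≤ 39 * T := by exact_mod_cast this
    have e : ((g (i + 2) : ℝ) / T + 2 * ((g (i + 3) : ℝ) / T)) / 3 =
        ((g (i + 2) + 2 * g (i + 3)) / 3) / T := by field_simp
    rw [e, div_le_iff₀ hT']
    linarith
  · intro i hi hh
    have e : (2 * ((g (i + 1) : ℝ) / T) + (g (i + 2) : ℝ) / T) / 3 =
        ((2 * g (i + 1) + g (i + 2)) / 3) / T := by field_simp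
    rw [e, lt_div_iff₀ hT'] at hh
    have := (h i (by omega)).2.2.2.2.2.2.1 hi (by
      have : (39 * T : ℝ) < 21 * (2 * g (i + 1) + g (i + 2)) := by linarith
      exact_mod_cast this)
    have h2 : (24 * T : ℝ) ≤ 21 * (g (i + 1) + g (i + 2) + g (i + 3)) := by exact_mod_cast this
    have e : ((g (i + 1) : ℝ) / T + (g (i + 2) : ℝ) / T + (g (i + 3) : ℝ) / T) / 3 =
        ((g (i + 1) + g (i + 2) + g (i + 3)) / 3) / T := by field_simp
    rw [e, le_div_iff₀ hT']
    linarith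
  · intro i hi hh
    have e : ((g (i + 1) : ℝ) / T + (g (i + 2) : ℝ) / T + (g (i + 3) : ℝ) / T) / 3 =
        ((g (i + 1) + g (i + 2) + g (i + 3)) / 3) / T := by field_simp
    rw [e, lt_div_iff₀ hT'] at hh
    have := (h i (by omega)).2.2.2.2.2.2.2 hi (by
      have : (39 * T : ℝ) < 21 * (g (i + 1) + g (i + 2) + g (i + 3)) := by linarith
      exact_mod_cast this)
    have h2 : (24 * T : ℝ) ≤ 21 * (g (i + 2) + 2 * g (i + 3)) := by exact_mod_cast this
    have e : ((g (i + 2) : ℝ) / T + 2 * ((g (i + 3) : ℝ) / T)) / 3 =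
        ((g (i + 2) + 2 * g (i + 3)) / 3) / T := by field_simp
    rw [e, le_div_iff₀ hT']
    linarith

end Pool.Agent.H931R3.Bal
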