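import Mathlib
import Pool.Agent.H34.L.H931R3.Bal5

/-! The distribution of the number of elements of the first chain before a given element of the
second chain. -/

open Finset

namespace Pool.Agent.H931R3.Bal

/-- number of interleavings with exactly `i` elements of the first chain before the element
number `j` of the second chain -/
def D (n m j i : ℕ) : ℕ := (i + j).choose j * (n - i + (m - 1 - j)).choose (m - 1 - j)

/-- number of interleavings with at least `i` elements of the first chain before the element
number `j` of the second chain -/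
def Kf (n m j i : ℕ) : ℕ :=
  ∑ t ∈ range (j + 1), (i + j).choose t * (n + m - (i + j)).choose (m - t)

lemma Kf_end {n m j : ℕ} (hj : j < m) : Kf n m j (n + 1) = 0 := by
  unfold Kf
  apply Finset.sum_eq_zero
  intro t ht
  rw [mem_range] at ht
  rw [Nat.choose_eq_zero_of_lt (show n + m - (n + 1 + j) < m - t by omega), mul_zero]

lemma Kf_step {n m j i : ℕ} (hj : j < m) (hi : i ≤ n) :
    Kf n m j i = D n m j i + Kf n m j (i + 1) := by
  unfold Kf D
  obtain ⟨b, rfl⟩ : ∃ b, m = j + 1 + b := ⟨m - (j + 1), by omega⟩
  obtain ⟨c, rfl⟩ : ∃ c, n = i + c := ⟨n - i, by omega⟩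
  have e1 : i + c + (j + 1 + b) - (i + j) = (c + b) + 1 := by omega
  have e2 : i + c + (j + 1 + b) - (i + 1 + j) = c + b := by omega
  have e3 : i + c - i + (j + 1 + b - 1 - j) = c + b := by omega
  have e4 : j + 1 + b - 1 - j = b := by omega
  have e5 : i + 1 + j = (i + j) + 1 := by omega
  rw [e1, e2, e3, e4, e5]
  have h1 : ∀ t ∈ range (j + 1), (i + j).choose t * (c + b + 1).choose (j + 1 + b - t) =
      (i + j).choose t * (c + b).choose (j + b - t) +
        (i + j).choose t * (c + b).choose (j + 1 + b - t) := by
    intro t ht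
    rw [mem_range] at ht
    rw [show j + 1 + b - t = (j + b - t) + 1 by omega, Nat.choose_succ_succ, mul_add]
  rw [Finset.sum_congr rfl h1, Finset.sum_add_distrib]
  rw [Finset.sum_range_succ (fun t => (i + j).choose t * (c + b).choose (j + b - t)) j]
  rw [show j + b - j = b by omega]
  have h2 : ∑ t ∈ range (j + 1), (i + j + 1).choose t * (c + b).choose (j + 1 + b - t) =
      ∑ t ∈ range j, (i + j).choose t * (c + b).choose (j + b - t) +
        ∑ t ∈ range (j + 1), (i + j).choose t * (c + b).choose (j + 1 + b - t) := by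
    rw [Finset.sum_range_succ' (fun t => (i + j + 1).choose t * (c + b).choose (j + 1 + b - t)),
      Finset.sum_range_succ' (fun t => (i + j).choose t * (c + b).choose (j + 1 + b - t))]
    rw [← add_assoc, ← Finset.sum_add_distrib]
    congr 1
    · apply Finset.sum_congr rfl
      intro t ht
      rw [mem_range] at ht
      rw [Nat.choose_succ_succ, show j + 1 + b - (t + 1) = j + b - t by omega, add_mul]
    · simp
  rw [h2]
  ring

lemma Kf_zero {n m j : ℕ} (hj : j < m) : Kf n m j 0 = (n + m).choose m := by
  have h1 := card_inter_le (α := Fin (n + m)) (Finset.Iio ⟨j, by omega⟩) hj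
  rw [card_compl, Fin.card_Iio, Fintype.card_fin] at h1
  unfold Kf
  rw [zero_add]
  simp only at h1
  rw [← h1]
  rw [show (n + m).choose m = #(powersetCard m (univ : Finset (Fin (n + m)))) by
    rw [card_powersetCard]; simp]
  congr 1
  apply Finset.filter_true_of_mem
  intro T _
  calc #(T ∩ Finset.Iio ⟨j, by omega⟩) ≤ #(Finset.Iio (⟨j, by omega⟩ : Fin (n + m))) :=
        card_le_card inter_subset_right
    _ = j := by rw [Fin.card_Iio]

lemma Kf_eq_sum {n m j : ℕ} (hj : j < m) : ∀ c i, i + c = n + 1 →
    Kf n m j i = ∑ k ∈ Ico i (n + 1), D n m j k := by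
  intro c
  induction c with
  | zero =>
    intro i hi
    rw [add_zero] at hi
    subst hi
    rw [Kf_end hj]
    simp
  | succ c ih =>
    intro i hi
    rw [Kf_step hj (by omega), ih (i + 1) (by omega),
      Finset.sum_eq_sum_Ico_succ_bot (show i < n + 1 by omega)]

lemma FF_eq_Kf {n m i j : ℕ} (hi : i < n) (hj : j < m) :
    FF n m i j = (Kf n m j (i + 1) : ℝ) / (n + m).choose m := by
  rw [FF_eq hi hj]
  unfold Kf
  rw [show i + 1 + j = i + j + 1 by ring]

/-- sup norm at most `1/7` -/
def SN (n m j : ℕ) : Prop := ∀ i ≤ n, 7 * D n m j i ≤ (n + m).choose m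

lemma SN_succ {n m j : ℕ} (hj : j < m) (h : SN n m j) : SN (n + 1) m j := by
  intro i hi
  obtain ⟨b, rfl⟩ : ∃ b, m = j + 1 + b := ⟨m - (j + 1), by omega⟩
  have hT : (n + 1 + (j + 1 + b)).choose (j + 1 + b) * (n + 1) =
      (n + (j + 1 + b)).choose (j + 1 + b) * (n + 1 + (j + 1 + b)) := by
    have := Nat.choose_mul_succ_eq (n + (j + 1 + b)) (j + 1 + b)
    rw [show n + (j + 1 + b) + 1 = n + 1 + (j + 1 + b) by omega,
      show n + 1 + (j + 1 + b) - (j + 1 + b) = n + 1 by omega] at this
    exact this.symm
  -- the recursion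
  have key : (n + 1) * D (n + 1) (j + 1 + b) j i ≤
      (if i ≤ n then D n (j + 1 + b) j i * (n - i + b + 1) else 0) +
      (if 1 ≤ i then D n (j + 1 + b) j (i - 1) * (i + j) else 0) := by
    unfold D
    rw [show j + 1 + b - 1 - j = b by omega]
    have A : i ≤ n → (n + 1 - i + b).choose b * (n + 1 - i) =
        (n - i + b).choose b * (n - i + b + 1) := by
      intro h1
      have := Nat.choose_mul_succ_eq (n - i + b) b
      rw [show n - i + b + 1 - b = n + 1 - i by omega] at this
      rw [show n + 1 - i + b = n - i + b + 1 by omega]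
      exact this.symm
    have B : 1 ≤ i → (i + j).choose j * i = (i - 1 + j).choose j * (i + j) := by
      intro h1
      have := Nat.choose_mul_succ_eq (i - 1 + j) j
      rw [show i - 1 + j + 1 - j = i by omega, show i - 1 + j + 1 = i + j by omega] at this
      exact this.symm
    have e3 : (n + 1) = (n + 1 - i) + i := by omega
    have lhs : (n + 1) * ((i + j).choose j * (n + 1 - i + b).choose b) =
        (i + j).choose j * ((n + 1 - i + b).choose b * (n + 1 - i)) +
        ((i + j).choose j * i) * (n + 1 - i + b).choose b := by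
      nth_rw 1 [e3]
      ring
    rw [lhs]
    apply Nat.add_le_add
    · split_ifs with h1
      · rw [A h1]
        exact le_of_eq (by ring)
      · have : n + 1 - i = 0 := by omega
        rw [this]
        simp
    · split_ifs with h1
      · rw [B h1]
        rw [show n - (i - 1) + b = n + 1 - i + b by omega]
        exact le_of_eq (by ring)
      · have : i = 0 := by omega
        rw [this]
        simp
  have hb1 : 7 * (if i ≤ n then D n (j + 1 + b) j i * (n - i + b + 1) else 0) ≤
      (n + (j + 1 + b)).choose (j + 1 + b) * (n + 1 - i + b) := by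
    split_ifs with h1
    · have := h i h1
      calc 7 * (D n (j + 1 + b) j i * (n - i + b + 1)) =
          (7 * D n (j + 1 + b) j i) * (n - i + b + 1) := by ring
        _ ≤ (n + (j + 1 + b)).choose (j + 1 + b) * (n - i + b + 1) := Nat.mul_le_mul_right _ this
        _ = _ := by rw [show n - i + b + 1 = n + 1 - i + b by omega]
    · simp
  have hb2 : 7 * (if 1 ≤ i then D n (j + 1 + b) j (i - 1) * (i + j) else 0) ≤
      (n + (j + 1 + b)).choose (j + 1 + b) * (i + j) := by
    split_ifs with h1
    · have := h (i - 1) (by omega)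
      calc 7 * (D n (j + 1 + b) j (i - 1) * (i + j)) =
          (7 * D n (j + 1 + b) j (i - 1)) * (i + j) := by ring
        _ ≤ (n + (j + 1 + b)).choose (j + 1 + b) * (i + j) := Nat.mul_le_mul_right _ this
    · simp
  have h3 : (n + 1) * (7 * D (n + 1) (j + 1 + b) j i) ≤
      (n + 1) * (n + 1 + (j + 1 + b)).choose (j + 1 + b) := by
    calc (n + 1) * (7 * D (n + 1) (j + 1 + b) j i) = 7 * ((n + 1) * D (n + 1) (j + 1 + b) j i) := by
          ring
      _ ≤ 7 * ((if i ≤ n then D n (j + 1 + b) j i * (n - i + b + 1) else 0) +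
          (if 1 ≤ i then D n (j + 1 + b) j (i - 1) * (i + j) else 0)) :=
          Nat.mul_le_mul_left _ key
      _ ≤ (n + (j + 1 + b)).choose (j + 1 + b) * (n + 1 - i + b) +
          (n + (j + 1 + b)).choose (j + 1 + b) * (i + j) := by
          rw [mul_add]; exact Nat.add_le_add hb1 hb2
      _ = (n + (j + 1 + b)).choose (j + 1 + b) * (n + 1 + b + j) := by
          rw [← mul_add]; congr 1; omega
      _ ≤ (n + (j + 1 + b)).choose (j + 1 + b) * (n + 1 + (j + 1 + b)) :=
          Nat.mul_le_mul_left _ (by omega)
      _ = (n + 1) * (n + 1 + (j + 1 + b)).choose (j + 1 + b) := by rw [← hT]; ring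
  exact Nat.le_of_mul_le_mul_left h3 (by omega)

lemma SN_mono {n n' m j : ℕ} (hj : j < m) (hn : n ≤ n') (h : SN n m j) : SN n' m j := by
  induction n', hn using Nat.le_induction with
  | base => exact h
  | succ k _ ih => exact SN_succ hj ih

end Pool.Agent.H931R3.Bal
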