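import Mathlib
import Pool.Agent.H34.L.H931R3.Bal6

/-! Good elements of the second poset. -/

open Finset

namespace Pool.Agent.H931R3.Bal

open Pool.Agent.H13R3.WB

lemma D_rel {N a b i : ℕ} (hi : i < N) (hb : N - 1 - a = b) :
    D N N a (i + 1) * ((i + 1) * (N - i + b)) = D N N a i * ((i + 1 + a) * (N - i)) := by
  unfold D
  rw [hb]
  have h1 := Nat.choose_mul_succ_eq (i + a) a
  rw [show i + a + 1 - a = i + 1 by omega] at h1
  have h2 := Nat.choose_mul_succ_eq (N - (i + 1) + b) b
  rw [show N - (i + 1) + b + 1 - b = N - i by omega,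
    show N - (i + 1) + b + 1 = N - i + b by omega] at h2
  rw [show i + 1 + a = i + a + 1 by ring]
  calc (i + a + 1).choose a * (N - (i + 1) + b).choose b * ((i + 1) * (N - i + b)) =
      ((i + a + 1).choose a * (i + 1)) * ((N - (i + 1) + b).choose b * (N - i + b)) := by ring
    _ = ((i + a).choose a * (i + a + 1)) * ((N - i + b).choose b * (N - i)) := by rw [h1, h2]
    _ = _ := by ring

lemma D_down {N a : ℕ} (ha : 2 * a + 1 ≤ N) {i : ℕ} (hi : i < N) (hai : a ≤ i) :
    D N N a (i + 1) ≤ D N N a i := by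
  obtain ⟨c, rfl⟩ : ∃ c, i = a + c := ⟨i - a, by omega⟩
  obtain ⟨d, rfl⟩ : ∃ d, N = a + c + 1 + d := ⟨N - (a + c + 1), by omega⟩
  have hb : a + c + 1 + d - 1 - a = c + d := by omega
  have h := D_rel hi hb
  have hXY : (a + c + 1 + a) * (a + c + 1 + d - (a + c)) ≤
      (a + c + 1) * (a + c + 1 + d - (a + c) + (c + d)) := by
    rw [show a + c + 1 + d - (a + c) = d + 1 by omega]
    have h2 : a ≤ c + d := by omega
    have h3 : a * (d + 1) ≤ (c + d) * (a + c + 1) := by
      rcases Nat.eq_zero_or_pos c with hc | hc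
      · subst hc
        nlinarith
      · have : d + 1 ≤ c + d := by omega
        calc a * (d + 1) ≤ (a + c + 1) * (c + d) := Nat.mul_le_mul (by omega) this
          _ = _ := by ring
    nlinarith
  have hpos : 0 < (a + c + 1) * (a + c + 1 + d - (a + c) + (c + d)) :=
    Nat.mul_pos (by omega) (by omega)
  have h4 : D (a + c + 1 + d) (a + c + 1 + d) a (a + c + 1) *
      ((a + c + 1) * (a + c + 1 + d - (a + c) + (c + d))) ≤
      D (a + c + 1 + d) (a + c + 1 + d) a (a + c) *
      ((a + c + 1) * (a + c + 1 + d - (a + c) + (c + d))) := by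
    rw [h]
    exact Nat.mul_le_mul_left _ hXY
  exact Nat.le_of_mul_le_mul_right h4 hpos

lemma D_up {N a : ℕ} (ha : 2 * a + 1 ≤ N) {i : ℕ} (hai : i < a) :
    D N N a i ≤ D N N a (i + 1) := by
  have hi : i < N := by omega
  have h := D_rel hi (rfl : N - 1 - a = N - 1 - a)
  have hXY : (i + 1) * (N - i + (N - 1 - a)) ≤ (i + 1 + a) * (N - i) := by
    have h3 : (i + 1) * (N - 1 - a) ≤ a * (N - i) := Nat.mul_le_mul (by omega) (by omega)
    nlinarith
  have hpos : 0 < (i + 1 + a) * (N - i) := Nat.mul_pos (by omega) (by omega)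
  have h4 : D N N a i * ((i + 1 + a) * (N - i)) ≤ D N N a (i + 1) * ((i + 1 + a) * (N - i)) := by
    rw [← h]
    exact Nat.mul_le_mul_left _ hXY
  exact Nat.le_of_mul_le_mul_right h4 hpos

lemma D_mode {N a : ℕ} (ha : 2 * a + 1 ≤ N) {i : ℕ} (hi : i ≤ N) : D N N a i ≤ D N N a a := by
  rcases le_total a i with h | h
  · induction i, h using Nat.le_induction with
    | base => exact le_rfl
    | succ k hk ih => exact (D_down ha (by omega) hk).trans (ih (by omega))
  · obtain ⟨c, hc⟩ : ∃ c, a = i + c := ⟨a - i, by omega⟩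
    induction c generalizing i with
    | zero => rw [add_zero] at hc; rw [hc]
    | succ c ih =>
      exact (D_up ha (by omega)).trans (ih (i := i + 1) (by omega) (by omega) (by omega))

lemma D_mid {N a : ℕ} (ha : a + 1 ≤ N) :
    2 * D N N a a = (2 * a).choose a * (N - a).centralBinom := by
  obtain ⟨M, rfl⟩ : ∃ M, N = a + 1 + M := ⟨N - (a + 1), by omega⟩
  unfold D
  rw [show a + 1 + M - a + (a + 1 + M - 1 - a) = 2 * M + 1 by omega,
    show a + 1 + M - 1 - a = M by omega, show a + 1 + M - a = M + 1 by omega,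
    show a + a = 2 * a by ring]
  have : (M + 1).centralBinom = 2 * (2 * M + 1).choose M := by
    rw [Nat.centralBinom, show 2 * (M + 1) = 2 * M + 1 + 1 by ring, Nat.choose_succ_succ,
      Nat.choose_symm_half]
    ring
  rw [this]
  ring

lemma cb_step {C a N : ℕ} (ha : a ≤ N) (h : C * (N - a).centralBinom ≤ 2 * N.centralBinom) :
    C * (N + 1 - a).centralBinom ≤ 2 * (N + 1).centralBinom := by
  obtain ⟨M, rfl⟩ : ∃ M, N = a + M := ⟨N - a, by omega⟩
  rw [show a + M + 1 - a = M + 1 by omega]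
  rw [show a + M - a = M by omega] at h
  have h1 := Nat.succ_mul_centralBinom_succ M
  have h2 := Nat.succ_mul_centralBinom_succ (a + M)
  have h3 : (M + 1) * (a + M + 1) * (C * (M + 1).centralBinom) ≤
      (M + 1) * (a + M + 1) * (2 * (a + M + 1).centralBinom) := by
    calc (M + 1) * (a + M + 1) * (C * (M + 1).centralBinom) =
        C * (a + M + 1) * ((M + 1) * (M + 1).centralBinom) := by ring
      _ = (C * M.centralBinom) * (2 * (2 * M + 1) * (a + M + 1)) := by rw [h1]; ring
      _ ≤ (2 * (a + M).centralBinom) * (2 * (2 * M + 1) * (a + M + 1)) :=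
          Nat.mul_le_mul_right _ h
      _ ≤ (2 * (a + M).centralBinom) * (2 * ((2 * (a + M) + 1) * (M + 1))) := by
          apply Nat.mul_le_mul_left
          nlinarith
      _ = 2 * (M + 1) * (2 * (2 * (a + M) + 1) * (a + M).centralBinom) := by ring
      _ = _ := by rw [← h2]; ring
  exact Nat.le_of_mul_le_mul_left h3 (by positivity)

lemma SN_diag {a : ℕ} (ha : 2 * a + 1 ≤ 20)
    (h0 : 7 * (2 * a).choose a * (20 - a).centralBinom ≤ 2 * (20).centralBinom) :
    ∀ N, 20 ≤ N → SN N N a := by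
  intro N hN
  have h : 7 * (2 * a).choose a * (N - a).centralBinom ≤ 2 * N.centralBinom := by
    induction N, hN using Nat.le_induction with
    | base => exact h0
    | succ k hk ih => exact cb_step (by omega) ih
  intro i hi
  have h1 := D_mode (N := N) (a := a) (by omega) hi
  have h2 := D_mid (N := N) (a := a) (by omega)
  rw [show N + N = 2 * N by ring, ← Nat.centralBinom]
  have h3 : 2 * (7 * D N N a i) ≤ 2 * N.centralBinom := by
    calc 2 * (7 * D N N a i) ≤ 2 * (7 * D N N a a) := by omega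
      _ = 7 * (2 * D N N a a) := by ring
      _ = 7 * (2 * a).choose a * (N - a).centralBinom := by rw [h2]; ring
      _ ≤ _ := h
  omega

/-- fast binomial coefficients -/
def ch (n k : ℕ) : ℕ := n.descFactorial k / k.factorial

lemma ch_eq (n k : ℕ) : ch n k = n.choose k := (Nat.choose_eq_descFactorial_div_factorial n k).symm

/-- fast version of `D` -/
def Df (n m j i : ℕ) : ℕ := ch (i + j) j * ch (n - i + (m - 1 - j)) (m - 1 - j)

lemma Df_eq (n m j i : ℕ) : Df n m j i = D n m j i := by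
  unfold Df D
  rw [ch_eq, ch_eq]

/-- the three ranks near the middle are good -/
def Sn3 (n m r : ℕ) : Prop :=
  r < m ∧ SN n m r ∧ (r + 1 < m → SN n m (r + 1)) ∧ (2 ≤ r → SN n m (r - 1))

/-- fast check of `SN` -/
def SNb (n m j : ℕ) : Bool := (List.range (n + 1)).all fun i => decide (7 * Df n m j i ≤ ch (n + m) m)

lemma SN_of_SNb {n m j : ℕ} (h : SNb n m j = true) : SN n m j := by
  intro i hi
  unfold SNb at h
  rw [List.all_eq_true] at h
  have := h i (List.mem_range.2 (by omega))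
  rw [decide_eq_true_eq, Df_eq, ch_eq] at this
  exact this

set_option maxRecDepth 100000 in
lemma checkB : ∀ m < 20, 1 ≤ m →
    (SNb 20 m ((m - 1) / 2) &&
    (decide (m ≤ (m - 1) / 2 + 1) || SNb 20 m ((m - 1) / 2 + 1)) &&
    (decide ((m - 1) / 2 < 2) || SNb 20 m ((m - 1) / 2 - 1))) = true := by
  decide +kernel

lemma Sn3_B {n m : ℕ} (hm : m < 20) (hm1 : 1 ≤ m) (hn : 20 ≤ n) : Sn3 n m ((m - 1) / 2) := by
  have h := checkB m hm hm1
  rw [Bool.and_eq_true, Bool.and_eq_true, Bool.or_eq_true, Bool.or_eq_true, decide_eq_true_eq,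
    decide_eq_true_eq] at h
  obtain ⟨⟨h1, h2⟩, h3⟩ := h
  refine ⟨by omega, SN_mono (by omega) hn (SN_of_SNb h1), fun h => ?_, fun h => ?_⟩
  · rcases h2 with h2 | h2
    · omega
    · exact SN_mono (by omega) hn (SN_of_SNb h2)
  · rcases h3 with h3 | h3
    · omega
    · exact SN_mono (by omega) hn (SN_of_SNb h3)

lemma num5 : 7 * (2 * 5).choose 5 * (20 - 5).centralBinom ≤ 2 * (20).centralBinom := by
  rw [Nat.centralBinom, Nat.centralBinom, ← ch_eq, ← ch_eq, ← ch_eq]
  decide +kernel

lemma num6 : 7 * (2 * 6).choose 6 * (20 - 6).centralBinom ≤ 2 * (20).centralBinom := by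
  rw [Nat.centralBinom, Nat.centralBinom, ← ch_eq, ← ch_eq, ← ch_eq]
  decide +kernel

lemma num7 : 7 * (2 * 7).choose 7 * (20 - 7).centralBinom ≤ 2 * (20).centralBinom := by
  rw [Nat.centralBinom, Nat.centralBinom, ← ch_eq, ← ch_eq, ← ch_eq]
  decide +kernel

lemma Sn3_C {n m : ℕ} (hm : 20 ≤ m) (hmn : m ≤ n) : Sn3 n m 6 := by
  refine ⟨by omega, ?_, fun _ => ?_, fun _ => ?_⟩
  · exact SN_mono (by omega) hmn (SN_diag (by norm_num) num6 m hm)
  · exact SN_mono (by omega) hmn (SN_diag (by norm_num) num7 m hm)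
  · exact SN_mono (by omega) hmn (SN_diag (by norm_num) num5 m hm)

lemma exists_Sn3 {n m : ℕ} (hm : 1 ≤ m) (hmn : m ≤ n) (hn : 20 ≤ n) : ∃ r, Sn3 n m r := by
  rcases Nat.lt_or_ge m 20 with h | h
  · exact ⟨_, Sn3_B h hm hn⟩
  · exact ⟨6, Sn3_C h hmn⟩

end Pool.Agent.H931R3.Bal
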