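import Mathlib
import Pool.Agent.H34.L.H931R3.Bal7

/-! Kernel computations for small sizes. -/

open Finset

namespace Pool.Agent.H931R3.Bal

/-- tail sums as a list -/
def sufL (f : ℕ → ℕ) : ℕ → ℕ → List ℕ
  | _, 0 => [0]
  | i, c + 1 => match sufL f (i + 1) c with
    | [] => [f i]
    | y :: ys => (f i + y) :: y :: ys

lemma sufL_getD (f : ℕ → ℕ) : ∀ c i t : ℕ,
    (sufL f i c).getD t 0 = ∑ k ∈ Ico (i + t) (i + c), f k := by
  intro c
  induction c with
  | zero =>
    intro i t
    rw [Finset.Ico_eq_empty (by omega)]
    cases t <;> simp [sufL]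
  | succ c ih =>
    intro i t
    have h1 := ih (i + 1)
    rw [sufL]
    cases hs : sufL f (i + 1) c with
    | nil =>
      rw [hs] at h1
      have h0 := h1 0
      simp only [List.getD_nil] at h0
      cases t with
      | zero =>
        simp only [List.getD_cons_zero, add_zero]
        rw [Finset.sum_eq_sum_Ico_succ_bot (by omega)]
        rw [show i + (c + 1) = i + 1 + c by ring]
        rw [add_zero] at h0
        omega
      | succ t =>
        have h2 := h1 t
        simp only [List.getD_nil] at h2
        simp only [List.getD_cons_succ, List.getD_nil]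
        rw [h2]
        congr 2 <;> ring
    | cons y ys =>
      rw [hs] at h1
      cases t with
      | zero =>
        have h0 := h1 0
        simp only [List.getD_cons_zero, add_zero] at h0 ⊢
        rw [Finset.sum_eq_sum_Ico_succ_bot (by omega), h0]
        rw [show i + (c + 1) = i + 1 + c by ring]
      | succ t =>
        have h2 := h1 t
        rw [List.getD_cons_succ, h2]
        congr 2 <;> ring

/-- weighted count for a code -/
def DDf (n m : ℕ) (cd : ℕ × ℕ) (i : ℕ) : ℕ :=
  (3 - cd.2) * Df n m cd.1 i + min cd.2 1 * Df n m (cd.1 + 1) i + (cd.2 - 1) * Df n m (cd.1 + 2) i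

/-- fast version of the integer function attached to a code -/
def gL (n m : ℕ) (cd : ℕ × ℕ) (i : ℕ) : ℕ := (sufL (DDf n m cd) 0 (n + 1)).getD i 0

/-- good codes -/
def good (n m : ℕ) (cd : ℕ × ℕ) : Bool := UCb (gL n m cd) (3 * ch (n + m) m) n

/-- the chosen rank -/
def rA (n m : ℕ) : ℕ :=
  if (n, m) ∈ [(4, 3), (6, 5), (7, 6), (8, 3), (8, 5), (8, 7), (9, 8), (10, 7), (10, 9), (11, 10),
    (12, 9), (12, 11), (14, 13)] then 0 else if (n, m) = (10, 5) then 1 else (m - 1) / 2

/-- some element of a three-element block is good -/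
def goodE (n m s : ℕ) : Bool := good n m (s, 1) || good n m (s, 2) || good n m (s, 3)

/-- the check for one pair of sizes -/
def okA (n m : ℕ) : Bool :=
  decide (rA n m < m) && good n m (rA n m, 0) &&
  (List.range m).all fun s => decide (rA n m < s) || decide (s + 2 < rA n m) ||
    decide (m < s + 3) || goodE n m s

set_option maxRecDepth 100000 in
lemma checkA : ∀ n < 20, ∀ m < n + 1, 1 ≤ m → n = 2 * m ∧ m ≤ 4 ∨ okA n m = true := by
  decide +kernel

end Pool.Agent.H931R3.Bal
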