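import Mathlib
import Pool.Agent.H34.L.H931R3.Bal8

/-! Balanced pairs in the disjoint sum of two posets of the class `𝒟`. -/

open Finset

namespace Pool.Agent.H931R3.Bal

open Pool.Agent.H13R3.WB

/-- lists of blocks with a given number of elements -/
def wl : ℕ → List (List Bool)
  | 0 => [[]]
  | 1 => [[false]]
  | 2 => [[false, false]]
  | (n + 3) => (wl (n + 2)).map (List.cons false) ++ (wl n).map (List.cons true)

lemma len_eq_zero {w : List Bool} (h : len w = 0) : w = [] := by
  cases w with
  | nil => rfl
  | cons b w => cases b <;> simp [len] at h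

lemma mem_wl : ∀ n w, len w = n → w ∈ wl n := by
  intro n
  induction n using Nat.strong_induction_on with
  | _ n ih =>
    intro w hw
    match w, hw with
    | [], hw =>
      simp only [len] at hw
      subst hw
      simp [wl]
    | false :: w, hw =>
      simp only [len] at hw
      match n, hw, ih with
      | 0, hw, _ => omega
      | 1, hw, _ =>
        have : w = [] := len_eq_zero (by omega)
        subst this
        simp [wl]
      | 2, hw, ih =>
        have := ih 1 (by omega) w (by omega)
        simp only [wl, List.mem_singleton] at this ⊢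
        rw [this]
      | k + 3, hw, ih =>
        have := ih (k + 2) (by omega) w (by omega)
        rw [wl, List.mem_append]
        exact Or.inl (List.mem_map_of_mem this)
    | true :: w, hw =>
      simp only [len] at hw
      match n, hw, ih with
      | 0, hw, _ => omega
      | 1, hw, _ => omega
      | 2, hw, _ => omega
      | k + 3, hw, ih =>
        have := ih k (by omega) w (by omega)
        rw [wl, List.mem_append]
        exact Or.inr (List.mem_map_of_mem this)

/-- tail sums for one rank -/
def g1 (n m r i : ℕ) : ℕ := (sufL (Df n m r) 0 (n + 1)).getD i 0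

/-- balance test for one pair of codes -/
def balb (n m r : ℕ) (cd : ℕ × ℕ) : Bool :=
  decide (24 * ch (n + m) m ≤ 21 * ((3 - cd.2) * g1 n m r (cd.1 + 1) +
    min cd.2 1 * g1 n m r (cd.1 + 2) + (cd.2 - 1) * g1 n m r (cd.1 + 3))) &&
  decide (21 * ((3 - cd.2) * g1 n m r (cd.1 + 1) +
    min cd.2 1 * g1 n m r (cd.1 + 2) + (cd.2 - 1) * g1 n m r (cd.1 + 3)) ≤ 39 * ch (n + m) m)

/-- all words have a balanced code -/
def okX (n m : ℕ) : Bool :=
  (wl n).all fun w => (List.range m).any fun r => (codes 0 w).any fun cd => balb n m r cd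

set_option maxRecDepth 100000 in
lemma checkX : okX 4 2 = true ∧ okX 6 3 = true ∧ okX 8 4 = true ∧ goodE 6 3 0 = true ∧
    goodE 8 4 0 = true ∧ goodE 8 4 1 = true := by
  decide +kernel

/-- valid codes -/
def valid (m : ℕ) (cd : ℕ × ℕ) : Prop :=
  (cd.2 = 0 ∧ cd.1 < m) ∨ (1 ≤ cd.2 ∧ cd.2 ≤ 3 ∧ cd.1 + 3 ≤ m)

lemma codes_valid : ∀ (w : List Bool) (s : ℕ) (cd : ℕ × ℕ), cd ∈ codes s w →
    valid (s + len w) cd := by
  intro w
  induction w with
  | nil => intro s cd h; simp [codes] at h
  | cons b w ih =>
    intro s cd h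
    cases b
    · simp only [codes, List.mem_cons] at h
      rcases h with rfl | h
      · refine Or.inl ⟨rfl, ?_⟩
        simp only [len]
        omega
      · have := ih _ _ h
        simp only [len]
        rw [show s + (1 + len w) = s + 1 + len w by ring]
        exact this
    · simp only [codes, List.mem_cons] at h
      rcases h with rfl | rfl | rfl | h
      · refine Or.inr ⟨by norm_num, by norm_num, ?_⟩
        simp only [len]
        omega
      · refine Or.inr ⟨by norm_num, by norm_num, ?_⟩
        simp only [len]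
        omega
      · refine Or.inr ⟨by norm_num, by norm_num, ?_⟩
        simp only [len]
        omega
      · have := ih _ _ h
        simp only [len]
        rw [show s + (3 + len w) = s + 3 + len w by ring]
        exact this

lemma cover : ∀ (w : List Bool) (s0 r : ℕ), s0 ≤ r → r < s0 + len w →
    (r, 0) ∈ codes s0 w ∨ ∃ s, s0 ≤ s ∧ s ≤ r ∧ r ≤ s + 2 ∧ s + 3 ≤ s0 + len w ∧
      (s, 1) ∈ codes s0 w ∧ (s, 2) ∈ codes s0 w ∧ (s, 3) ∈ codes s0 w := by
  intro w
  induction w with
  | nil => intro s0 r h1 h2; simp [len] at h2; omega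
  | cons b w ih =>
    intro s0 r h1 h2
    cases b
    · simp only [len] at h2
      by_cases h : r = s0
      · left
        simp [codes, h]
      · rcases ih (s0 + 1) r (by omega) (by omega) with h3 | ⟨s, a1, a2, a3, a4, a5, a6, a7⟩
        · left
          simp [codes, h3]
        · right
          refine ⟨s, by omega, a2, a3, by simp only [len]; omega, ?_, ?_, ?_⟩ <;>
            simp only [codes, List.mem_cons] <;> right <;> assumption
    · simp only [len] at h2
      by_cases h : r ≤ s0 + 2
      · right
        refine ⟨s0, le_rfl, h1, h, by simp only [len]; omega, ?_, ?_, ?_⟩ <;> simp [codes]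
      · rcases ih (s0 + 3) r (by omega) (by omega) with h3 | ⟨s, a1, a2, a3, a4, a5, a6, a7⟩
        · left
          simp [codes, h3]
        · right
          refine ⟨s, by omega, a2, a3, by simp only [len]; omega, ?_, ?_, ?_⟩ <;>
            simp only [codes, List.mem_cons] <;> right <;> right <;> right <;> assumption

/-- weighted count for a code -/
def DD (n m : ℕ) (cd : ℕ × ℕ) (i : ℕ) : ℕ :=
  (3 - cd.2) * D n m cd.1 i + min cd.2 1 * D n m (cd.1 + 1) i + (cd.2 - 1) * D n m (cd.1 + 2) i

lemma gL_eq (n m : ℕ) (cd : ℕ × ℕ) (i : ℕ) : gL n m cd i = ∑ k ∈ Ico i (n + 1), DD n m cd k := by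
  unfold gL
  rw [sufL_getD]
  simp only [zero_add]
  apply Finset.sum_congr rfl
  intro k _
  unfold DDf DD
  simp only [Df_eq]

lemma g1_eq {n m r : ℕ} (hr : r < m) {i : ℕ} (hi : i ≤ n + 1) : g1 n m r i = Kf n m r i := by
  unfold g1
  rw [sufL_getD]
  simp only [zero_add]
  rw [Kf_eq_sum hr (n + 1 - i) i (by omega)]
  apply Finset.sum_congr rfl
  intro k _
  rw [Df_eq]

lemma gL_Kf {n m : ℕ} {cd : ℕ × ℕ} (h : valid m cd) {i : ℕ} (hi : i ≤ n + 1) :
    gL n m cd i = (3 - cd.2) * Kf n m cd.1 i + min cd.2 1 * Kf n m (cd.1 + 1) i +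
      (cd.2 - 1) * Kf n m (cd.1 + 2) i := by
  rw [gL_eq]
  unfold DD
  rw [Finset.sum_add_distrib, Finset.sum_add_distrib, ← Finset.mul_sum, ← Finset.mul_sum,
    ← Finset.mul_sum]
  rcases h with ⟨h1, h2⟩ | ⟨h1, h2, h3⟩
  · rw [Kf_eq_sum h2 (n + 1 - i) i (by omega)]
    simp [h1]
  · rw [Kf_eq_sum (show cd.1 < m by omega) (n + 1 - i) i (by omega),
      Kf_eq_sum (show cd.1 + 1 < m by omega) (n + 1 - i) i (by omega),
      Kf_eq_sum (show cd.1 + 2 < m by omega) (n + 1 - i) i (by omega)]

lemma gL_zero {n m : ℕ} {cd : ℕ × ℕ} (h : valid m cd) : gL n m cd 0 = 3 * (n + m).choose m := by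
  rw [gL_Kf h (by omega)]
  rcases h with ⟨h1, h2⟩ | ⟨h1, h2, h3⟩
  · rw [Kf_zero h2]
    simp [h1]
  · rw [Kf_zero (show cd.1 < m by omega), Kf_zero (show cd.1 + 1 < m by omega),
      Kf_zero (show cd.1 + 2 < m by omega)]
    have h4 : cd.2 = 1 ∨ cd.2 = 2 ∨ cd.2 = 3 := by omega
    rcases h4 with h4 | h4 | h4 <;> rw [h4] <;> norm_num <;> ring

/-- the real function attached to a code -/
noncomputable def Gc (n m : ℕ) (cd : ℕ × ℕ) (i : ℕ) : ℝ :=
  (gL n m cd i : ℝ) / ((3 * (n + m).choose m : ℕ) : ℝ)

lemma choose_pos' (n m : ℕ) : 0 < (n + m).choose m := Nat.choose_pos (by omega)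

lemma Gc_zero {n m : ℕ} {cd : ℕ × ℕ} (h : valid m cd) : Gc n m cd 0 = 1 := by
  unfold Gc
  rw [gL_zero h]
  have := choose_pos' n m
  apply div_self
  have : 0 < 3 * (n + m).choose m := by omega
  exact_mod_cast this.ne'

lemma ev_FF {n m : ℕ} {cd : ℕ × ℕ} (h : valid m cd) {i : ℕ} (hi : i < n) :
    ev cd (fun j => FF n m i j) = Gc n m cd (i + 1) := by
  unfold Gc
  rw [gL_Kf h (by omega)]
  have hT : (0 : ℝ) < (n + m).choose m := by exact_mod_cast choose_pos' n m
  have hT0 := hT.ne'
  unfold ev
  beta_reduce
  rcases h with ⟨h1, h2⟩ | ⟨h1, h2, h3⟩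
  · rw [FF_eq_Kf hi h2]
    rw [h1]
    push_cast
    simp
    field_simp
  · rw [FF_eq_Kf hi (show cd.1 < m by omega), FF_eq_Kf hi (show cd.1 + 1 < m by omega),
      FF_eq_Kf hi (show cd.1 + 2 < m by omega)]
    push_cast
    field_simp

lemma UC_of_good {n m : ℕ} {cd : ℕ × ℕ} (h : good n m cd = true) : UC (Gc n m cd) n := by
  unfold good at h
  rw [ch_eq] at h
  exact UC_of_UCN (by have := choose_pos' n m; omega) (UCN_of_UCb h)

lemma UC_of_SN {n m : ℕ} {cd : ℕ × ℕ} (hk : cd.2 ≤ 3)
    (h0 : cd.2 < 3 → SN n m cd.1) (h1 : 1 ≤ cd.2 → SN n m (cd.1 + 1))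
    (h2 : 2 ≤ cd.2 → SN n m (cd.1 + 2)) : UC (Gc n m cd) n := by
  have hT : (0 : ℝ) < ((3 * (n + m).choose m : ℕ) : ℝ) := by
    have := choose_pos' n m
    have : 0 < 3 * (n + m).choose m := by omega
    exact_mod_cast this
  have hstep : ∀ i ≤ n, gL n m cd i = DD n m cd i + gL n m cd (i + 1) := by
    intro i hi
    rw [gL_eq, gL_eq, Finset.sum_eq_sum_Ico_succ_bot (by omega)]
  have hdiff : ∀ i ≤ n, Gc n m cd i - Gc n m cd (i + 1) =
      (DD n m cd i : ℝ) / ((3 * (n + m).choose m : ℕ) : ℝ) := by
    intro i hi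
    unfold Gc
    rw [hstep i hi]
    push_cast
    ring
  apply UC_of_sup
  · unfold Gc
    rw [gL_eq]
    simp
  · intro i hi
    rw [hdiff i hi, div_le_div_iff₀ hT (by norm_num)]
    have : DD n m cd i * 7 ≤ 1 * (3 * (n + m).choose m) := by
      unfold DD
      have h4 : cd.2 = 0 ∨ cd.2 = 1 ∨ cd.2 = 2 ∨ cd.2 = 3 := by omega
      rcases h4 with h4 | h4 | h4 | h4
      · have a0 := h0 (by omega) i hi
        rw [h4]
        norm_num
        omega
      · have a0 := h0 (by omega) i hi
        have a1 := h1 (by omega) i hi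
        rw [h4]
        norm_num
        omega
      · have a0 := h0 (by omega) i hi
        have a1 := h1 (by omega) i hi
        have a2 := h2 (by omega) i hi
        rw [h4]
        norm_num
        omega
      · have a1 := h1 (by omega) i hi
        have a2 := h2 (by omega) i hi
        rw [h4]
        norm_num
        omega
    exact_mod_cast this
  · intro i hi
    rw [hdiff i hi]
    positivity

/-- a good code exists outside the exceptional sizes -/
lemma exists_good {n m : ℕ} (hmn : m ≤ n) {w : List Bool} (hw : len w = m) (hm : 1 ≤ m) :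
    (n = 2 * m ∧ m ≤ 4 ∧ ∀ r < m, (r, 0) ∈ codes 0 w) ∨ ∃ cd ∈ codes 0 w, UC (Gc n m cd) n := by
  rcases Nat.lt_or_ge n 20 with hn | hn
  · rcases checkA n hn m (by omega) hm with h | h
    · -- exceptional sizes
      obtain ⟨h1, h2⟩ := h
      have h3 : m = 1 ∨ m = 2 ∨ m = 3 ∨ m = 4 := by omega
      obtain ⟨c1, c2, c3, c4, c5, c6⟩ := checkX
      have hgE : ∀ s, goodE n m s = true → (s, 1) ∈ codes 0 w → (s, 2) ∈ codes 0 w →
          (s, 3) ∈ codes 0 w → ∃ cd ∈ codes 0 w, UC (Gc n m cd) n := by
        intro s hs m1 m2 m3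
        unfold goodE at hs
        rw [Bool.or_eq_true, Bool.or_eq_true] at hs
        rcases hs with (hs | hs) | hs
        · exact ⟨_, m1, UC_of_good hs⟩
        · exact ⟨_, m2, UC_of_good hs⟩
        · exact ⟨_, m3, UC_of_good hs⟩
      have hmem := mem_wl m w hw
      rcases h3 with rfl | rfl | rfl | rfl
      · left
        refine ⟨h1, h2, ?_⟩
        simp only [wl, List.mem_singleton] at hmem
        subst hmem
        intro r hr
        have : r = 0 := by omega
        subst this
        simp [codes]
      · left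
        refine ⟨h1, h2, ?_⟩
        simp only [wl, List.mem_singleton] at hmem
        subst hmem
        intro r hr
        have : r = 0 ∨ r = 1 := by omega
        rcases this with rfl | rfl <;> simp [codes]
      · subst h1
        simp [wl] at hmem
        rcases hmem with rfl | rfl
        · left
          refine ⟨rfl, h2, ?_⟩
          intro r hr
          have : r = 0 ∨ r = 1 ∨ r = 2 := by omega
          rcases this with rfl | rfl | rfl <;> simp [codes]
        · right
          exact hgE 0 c4 (by simp [codes]) (by simp [codes]) (by simp [codes])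
      · subst h1
        simp [wl] at hmem
        rcases hmem with rfl | rfl | rfl
        · left
          refine ⟨rfl, h2, ?_⟩
          intro r hr
          have : r = 0 ∨ r = 1 ∨ r = 2 ∨ r = 3 := by omega
          rcases this with rfl | rfl | rfl | rfl <;> simp [codes]
        · right
          exact hgE 1 c6 (by simp [codes]) (by simp [codes]) (by simp [codes])
        · right
          exact hgE 0 c5 (by simp [codes]) (by simp [codes]) (by simp [codes])
    · right
      unfold okA at h
      rw [Bool.and_eq_true, Bool.and_eq_true, decide_eq_true_eq, List.all_eq_true] at h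
      obtain ⟨⟨h1, h2⟩, h3⟩ := h
      rcases cover w 0 (rA n m) (by omega) (by omega) with h4 | ⟨s, a1, a2, a3, a4, a5, a6, a7⟩
      · exact ⟨_, h4, UC_of_good h2⟩
      · have := h3 s (List.mem_range.2 (by omega))
        rw [Bool.or_eq_true, Bool.or_eq_true, Bool.or_eq_true, decide_eq_true_eq,
          decide_eq_true_eq, decide_eq_true_eq] at this
        rcases this with ((h5 | h5) | h5) | h5
        · omega
        · omega
        · omega
        · unfold goodE at h5
          rw [Bool.or_eq_true, Bool.or_eq_true] at h5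
          rcases h5 with (h5 | h5) | h5
          · exact ⟨_, a5, UC_of_good h5⟩
          · exact ⟨_, a6, UC_of_good h5⟩
          · exact ⟨_, a7, UC_of_good h5⟩
  · right
    obtain ⟨r, hr, s0, s1, s2⟩ := exists_Sn3 hm hmn hn
    rcases cover w 0 r (by omega) (by omega) with h4 | ⟨s, a1, a2, a3, a4, a5, a6, a7⟩
    · exact ⟨_, h4, UC_of_SN (by norm_num) (fun _ => s0) (fun h => absurd h (by norm_num))
        (fun h => absurd h (by norm_num))⟩
    · have h5 : s = r ∨ s + 1 = r ∨ s + 2 = r := by omega
      rcases h5 with rfl | h5 | h5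
      · exact ⟨_, a5, UC_of_SN (by norm_num) (fun _ => s0) (fun _ => s1 (by omega))
          (fun h => absurd h (by norm_num))⟩
      · refine ⟨_, a7, UC_of_SN (by norm_num) (fun h => absurd h (by norm_num)) (fun _ => ?_)
          (fun _ => ?_)⟩
        · show SN n m (s + 1)
          rw [h5]; exact s0
        · show SN n m (s + 2)
          rw [show s + 2 = r + 1 by omega]; exact s1 (by omega)
      · refine ⟨_, a7, UC_of_SN (by norm_num) (fun h => absurd h (by norm_num)) (fun _ => ?_)
          (fun _ => ?_)⟩
        · show SN n m (s + 1)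
          rw [show s + 1 = r - 1 by omega]; exact s2 (by omega)
        · show SN n m (s + 2)
          rw [h5]; exact s0

end Pool.Agent.H931R3.Bal
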