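import Mathlib
import Pool.Agent.H34.L.H931R3.Bal9

/-! The gap above `1/3` for sums of posets. -/

open Finset

namespace Pool.Agent.H931R3.Bal

open Pool.Agent.H13R3.WB

lemma avg_congr {P : Type} [PartialOrder P] {n : ℕ} {x : P} {φ ψ : ℕ → ℝ}
    (h : ∀ i < n, φ i = ψ i) : avg P n x φ = avg P n x ψ := by
  unfold avg
  congr 1
  apply Finset.sum_congr rfl
  intro f _
  exact h _ (f.1 x).2

lemma pr_add {P : Type} [Fintype P] [PartialOrder P] {n : ℕ} (hn : Fintype.card P = n) {x y : P}
    (hxy : x ≠ y) : pr P n x y + pr P n y x = 1 := by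
  unfold pr
  rw [← add_div, ← Finset.sum_add_distrib]
  have h1 := card_ne hn
  have h2 : ∀ f : LEn P n, (if f.1 x < f.1 y then (1 : ℝ) else 0) +
      (if f.1 y < f.1 x then (1 : ℝ) else 0) = 1 := by
    intro f
    have : f.1 x ≠ f.1 y := fun h => hxy (f.1.injective h)
    rcases lt_or_gt_of_ne this with h | h
    · rw [if_pos h, if_neg (not_lt.2 h.le)]; norm_num
    · rw [if_neg (not_lt.2 h.le), if_pos h]; norm_num
  rw [Finset.sum_congr rfl (fun f _ => h2 f), Finset.sum_const, Finset.card_univ, nsmul_eq_mul,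
    mul_one, div_self h1]

lemma prob_add {P : Type} [Fintype P] [PartialOrder P] {x y : P} (hxy : x ≠ y) :
    prob P x y + prob P y x = 1 := by
  rw [prob_eq rfl, prob_eq rfl]
  exact pr_add rfl hxy

lemma le_balance {P : Type} [Fintype P] [PartialOrder P] (x y : P) :
    min (prob P x y) (prob P y x) ≤ balance P := by
  unfold balance
  exact le_ciSup (f := fun p : P × P => min (prob P p.1 p.2) (prob P p.2 p.1))
    (Set.finite_range _).bddAbove (x, y)

lemma le_balance' {P : Type} [Fintype P] [PartialOrder P] {x y : P} (hxy : x ≠ y)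
    (h1 : 8 / 21 ≤ prob P x y) (h2 : prob P x y ≤ 13 / 21) : 8 / 21 ≤ balance P := by
  have h3 := prob_add hxy
  exact (le_min h1 (by linarith)).trans (le_balance x y)

lemma balance_le_of {P R : Type} [Fintype P] [PartialOrder P] [Fintype R] [PartialOrder R]
    [Nonempty P] (e : P → R) (h : ∀ x x', prob P x x' = prob R (e x) (e x')) :
    balance P ≤ balance R := by
  have : Nonempty (P × P) := inferInstance
  unfold balance
  apply ciSup_le
  rintro ⟨x, x'⟩
  simp only
  rw [h, h]
  exact le_balance (e x) (e x')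

lemma prob_iso {P R : Type} [Fintype P] [PartialOrder P] [Fintype R] [PartialOrder R]
    (e : P ≃o R) (x x' : P) : prob P x x' = prob R (e x) (e x') := by
  rw [prob_eq (n := Fintype.card P) rfl, prob_eq (n := Fintype.card P)
    (Fintype.card_congr e.symm.toEquiv), pr_iso]

lemma balance_iso {P R : Type} [Fintype P] [PartialOrder P] [Fintype R] [PartialOrder R]
    [Nonempty P] (e : P ≃o R) : balance P ≤ balance R :=
  balance_le_of e (prob_iso e)

lemma InD.nonempty {P : Type} [PartialOrder P] (h : InD P) : Nonempty P := by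
  obtain ⟨w, hw, hc, hf, _⟩ := blocksC h
  have : 0 < Nat.card P := by
    rw [hc]
    rcases Nat.eq_zero_or_pos (len w) with h0 | h0
    · exact absurd (len_eq_zero h0) hw
    · exact h0
  exact (Nat.card_pos_iff.1 this).1

lemma InD.iso {P R : Type} [PartialOrder P] [PartialOrder R] (h : InD P) (e : P ≃o R) :
    InD R := by
  cases h with
  | one _ e1 => exact InD.one R (e1.map fun e1 => e.symm.trans e1)
  | three _ e1 => exact InD.three R (e1.map fun e1 => e.symm.trans e1)
  | sum A B _ hA hB e1 => exact InD.sum A B R hA hB (e1.map fun e1 => e.symm.trans e1)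

variable {P Q : Type} [Fintype P] [Fintype Q] [PartialOrder P] [PartialOrder Q]

lemma cross (hP : InD P) (hQ : InD Q) (hmn : Fintype.card Q ≤ Fintype.card P) :
    (Fintype.card P = 2 ∧ Fintype.card Q = 1) ∨ 8 / 21 ≤ balance (P ⊕ Q) := by
  obtain ⟨w, hw, hcw, -, hvw⟩ := blocksC hP
  obtain ⟨v, hv, hcv, -, hvv⟩ := blocksC hQ
  have hn : Fintype.card P = len w := by rw [← hcw, Nat.card_eq_fintype_card]
  have hm : Fintype.card Q = len v := by rw [← hcv, Nat.card_eq_fintype_card]
  have hm1 : 1 ≤ len v := by
    rcases Nat.eq_zero_or_pos (len v) with h0 | h0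
    · exact absurd (len_eq_zero h0) hv
    · exact h0
  have hvw' : ∀ cd ∈ codes 0 w, ∃ x : P, ∀ φ : ℕ → ℝ, avg P (len w) x φ = ev cd φ := by
    intro cd hcd
    obtain ⟨x, hx⟩ := hvw 0 cd hcd
    exact ⟨x, fun φ => by rw [← hx φ]; simp⟩
  have hvv' : ∀ cd ∈ codes 0 v, ∃ y : Q, ∀ φ : ℕ → ℝ, avg Q (len v) y φ = ev cd φ := by
    intro cd hcd
    obtain ⟨x, hx⟩ := hvv 0 cd hcd
    exact ⟨x, fun φ => by rw [← hx φ]; simp⟩
  have hcard : Fintype.card (P ⊕ Q) = len w + len v := by
    rw [Fintype.card_sum, hn, hm]
  rcases exists_good (n := len w) (m := len v) (by omega) rfl hm1 with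
    ⟨h1, h2, h3⟩ | ⟨cd', hcd', hUC⟩
  · rcases Nat.lt_or_ge 1 (len v) with h4 | h4
    · right
      have hx : okX (len w) (len v) = true := by
        have : len v = 2 ∨ len v = 3 ∨ len v = 4 := by omega
        obtain ⟨c1, c2, c3, -⟩ := checkX
        rcases this with h | h | h <;> rw [h1, h]
        · exact c1
        · exact c2
        · exact c3
      unfold okX at hx
      rw [List.all_eq_true] at hx
      have h5 := hx w (mem_wl _ w rfl)
      rw [List.any_eq_true] at h5
      obtain ⟨r, hr, h6⟩ := h5
      rw [List.any_eq_true] at h6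
      obtain ⟨cd, hcd, h7⟩ := h6
      have hr' : r < len v := List.mem_range.1 hr
      obtain ⟨x, hx⟩ := hvw' cd hcd
      obtain ⟨y, hy⟩ := hvv' (r, 0) (h3 r hr')
      have hpr : prob (P ⊕ Q) (Sum.inl x) (Sum.inr y) =
          ev cd (fun i => (g1 (len w) (len v) r (i + 1) : ℝ) /
            ((len w + len v).choose (len v) : ℕ)) := by
        rw [prob_eq hcard, pr_disj_cross hn hm, ← hx]
        apply avg_congr
        intro i hi
        rw [hy, ev0, FF_eq_Kf hi hr', g1_eq hr' (by omega)]
      have hT : (0 : ℝ) < ((len w + len v).choose (len v) : ℕ) := by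
        exact_mod_cast choose_pos' _ _
      unfold balb at h7
      rw [Bool.and_eq_true, decide_eq_true_eq, decide_eq_true_eq, ch_eq] at h7
      obtain ⟨h8, h9⟩ := h7
      have hval : ev cd (fun i => (g1 (len w) (len v) r (i + 1) : ℝ) /
            ((len w + len v).choose (len v) : ℕ)) =
          (((3 - cd.2) * g1 (len w) (len v) r (cd.1 + 1) +
            min cd.2 1 * g1 (len w) (len v) r (cd.1 + 2) +
            (cd.2 - 1) * g1 (len w) (len v) r (cd.1 + 3) : ℕ) : ℝ) /
            (3 * ((len w + len v).choose (len v) : ℕ)) := by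
        unfold ev
        push_cast
        field_simp
      have h8' : (24 : ℝ) * ((len w + len v).choose (len v) : ℕ) ≤
          21 * (((3 - cd.2) * g1 (len w) (len v) r (cd.1 + 1) +
            min cd.2 1 * g1 (len w) (len v) r (cd.1 + 2) +
            (cd.2 - 1) * g1 (len w) (len v) r (cd.1 + 3) : ℕ) : ℝ) := by exact_mod_cast h8
      have h9' : 21 * (((3 - cd.2) * g1 (len w) (len v) r (cd.1 + 1) +
            min cd.2 1 * g1 (len w) (len v) r (cd.1 + 2) +
            (cd.2 - 1) * g1 (len w) (len v) r (cd.1 + 3) : ℕ) : ℝ) ≤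
          39 * ((len w + len v).choose (len v) : ℕ) := by exact_mod_cast h9
      apply le_balance' (x := Sum.inl x) (y := Sum.inr y) (by simp)
      · rw [hpr, hval, le_div_iff₀ (by positivity)]
        linarith
      · rw [hpr, hval, div_le_iff₀ (by positivity)]
        linarith
    · left
      omega
  · right
    have hval := codes_valid v 0 cd' hcd'
    rw [zero_add] at hval
    obtain ⟨cd, hcd, h1, h2⟩ := U_aux hUC w 0 (by omega) (Or.inl (by
      rw [Gc_zero hval]; norm_num))
    obtain ⟨x, hx⟩ := hvw' cd hcd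
    obtain ⟨y, hy⟩ := hvv' cd' hcd'
    have hpr : prob (P ⊕ Q) (Sum.inl x) (Sum.inr y) =
        ev cd (fun i => Gc (len w) (len v) cd' (i + 1)) := by
      rw [prob_eq hcard, pr_disj_cross hn hm, ← hx]
      apply avg_congr
      intro i hi
      rw [hy, ev_FF hval hi]
    apply le_balance' (x := Sum.inl x) (y := Sum.inr y) (by simp)
    · rw [hpr]; exact h1
    · rw [hpr]; exact h2

lemma chain_two {P : Type} [Fintype P] [PartialOrder P] (h : InD P) (hc : Fintype.card P = 2) :
    Nonempty (P ≃o Fin 2) := by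
  have htot : ∀ x y : P, x ≤ y ∨ y ≤ x := by
    cases h with
    | one _ e =>
      obtain ⟨e⟩ := e
      have := Fintype.card_congr e.toEquiv
      simp at this
      omega
    | three _ e =>
      obtain ⟨e⟩ := e
      have := Fintype.card_congr e.toEquiv
      simp at this
      omega
    | sum A B _ hA hB e =>
      obtain ⟨e⟩ := e
      obtain ⟨_, _, _, hfA, _⟩ := blocksC hA
      obtain ⟨_, _, _, hfB, _⟩ := blocksC hB
      have := Fintype.ofFinite A
      have := Fintype.ofFinite B
      have hnA := InD.nonempty hA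
      have hnB := InD.nonempty hB
      have h1 : Nat.card P = Nat.card A + Nat.card B := by
        rw [Nat.card_congr e.toEquiv]
        exact Nat.card_sum
      rw [Nat.card_eq_fintype_card, Nat.card_eq_fintype_card, Nat.card_eq_fintype_card, hc] at h1
      have hA1 : 0 < Fintype.card A := Fintype.card_pos
      have hB1 : 0 < Fintype.card B := Fintype.card_pos
      have sA : Subsingleton A := Fintype.card_le_one_iff_subsingleton.1 (by omega)
      have sB : Subsingleton B := Fintype.card_le_one_iff_subsingleton.1 (by omega)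
      intro x y
      rw [← e.le_iff_le, ← e.le_iff_le (x := y)]
      rcases e x with a | a <;> rcases e y with b | b
      · left
        obtain rfl : a = b := Subsingleton.elim a b
        exact le_refl (toLex (Sum.inl a) : A ⊕ₗ B)
      · left
        exact Sum.Lex.inl_le_inr a b
      · right
        exact Sum.Lex.inl_le_inr b a
      · left
        obtain rfl : a = b := Subsingleton.elim a b
        exact le_refl (toLex (Sum.inr a) : A ⊕ₗ B)
  obtain ⟨f⟩ := LEn_nonempty hc
  refine ⟨⟨f.1, ?_⟩⟩
  intro x y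
  constructor
  · intro h
    rcases htot x y with h1 | h1
    · exact h1
    · have h2 := f.2 h1
      have : x = y := f.1.injective (le_antisymm h h2)
      rw [this]
  · intro h
    exact f.2 h

lemma InD_sum_of_card (hP : InD P) (h1 : Fintype.card P = 2) (h2 : Fintype.card Q = 1) :
    InD (P ⊕ Q) := by
  obtain ⟨e⟩ := chain_two hP h1
  have hs : Subsingleton Q := Fintype.card_le_one_iff_subsingleton.1 (by omega)
  have hne : Nonempty Q := Fintype.card_pos_iff.1 (by omega)
  obtain ⟨q⟩ := hne
  have e2 : Q ≃o Fin 1 :=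
    { toFun := fun _ => 0
      invFun := fun _ => q
      left_inv := fun x => Subsingleton.elim _ _
      right_inv := fun x => Subsingleton.elim _ _
      map_rel_iff' := by
        intro a b
        constructor
        · intro _
          rw [Subsingleton.elim a b]
        · intro _
          exact le_rfl }
  exact InD.three _ ⟨OrderIso.sumCongr e e2⟩

/-- disjoint sum of two posets of the class `𝒟` -/
theorem cross_sum (hP : InD P) (hQ : InD Q) : InD (P ⊕ Q) ∨ 8 / 21 ≤ balance (P ⊕ Q) := by
  rcases le_total (Fintype.card Q) (Fintype.card P) with h | h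
  · rcases cross hP hQ h with ⟨h1, h2⟩ | h1
    · exact Or.inl (InD_sum_of_card hP h1 h2)
    · exact Or.inr h1
  · have hne : Nonempty (Q ⊕ P) := by
      have := InD.nonempty hP
      infer_instance
    rcases cross hQ hP h with ⟨h1, h2⟩ | h1
    · exact Or.inl (InD.iso (InD_sum_of_card hQ h1 h2) (OrderIso.sumComm Q P))
    · exact Or.inr (h1.trans (balance_iso (OrderIso.sumComm Q P)))

lemma balance_sum_left [Nonempty P] : balance P ≤ balance (P ⊕ Q) :=
  balance_le_of Sum.inl fun x x' => by
    rw [prob_eq rfl, prob_eq (n := Fintype.card P + Fintype.card Q) Fintype.card_sum,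
      pr_disj_inl rfl rfl]

lemma balance_sum_right [Nonempty Q] : balance Q ≤ balance (P ⊕ Q) :=
  balance_le_of Sum.inr fun x x' => by
    rw [prob_eq rfl, prob_eq (n := Fintype.card P + Fintype.card Q) Fintype.card_sum,
      pr_disj_inr rfl rfl]

lemma card_lexS : Fintype.card (P ⊕ₗ Q) = Fintype.card P + Fintype.card Q := by
  rw [← Nat.card_eq_fintype_card, ← Nat.card_eq_fintype_card, ← Nat.card_eq_fintype_card]
  exact Nat.card_sum

lemma balance_lex_left [Nonempty P] : balance P ≤ balance (P ⊕ₗ Q) :=
  balance_le_of (fun x => toLex (Sum.inl x)) fun x x' => by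
    rw [prob_eq rfl, prob_eq (n := Fintype.card P + Fintype.card Q) card_lexS,
      pr_lex_inl rfl rfl]

lemma balance_lex_right [Nonempty Q] : balance Q ≤ balance (P ⊕ₗ Q) :=
  balance_le_of (fun x => toLex (Sum.inr x)) fun x x' => by
    rw [prob_eq rfl, prob_eq (n := Fintype.card P + Fintype.card Q) card_lexS,
      pr_lex_inr rfl rfl]

/-- the gap property is inherited by disjoint sums -/
theorem gap_sum [Nonempty P] [Nonempty Q] {c : ℝ} (hc : c ≤ 8 / 21) (hP : InD P ∨ c ≤ balance P)
    (hQ : InD Q ∨ c ≤ balance Q) : InD (P ⊕ Q) ∨ c ≤ balance (P ⊕ Q) := by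
  rcases hP with hP | hP
  · rcases hQ with hQ | hQ
    · rcases cross_sum hP hQ with h | h
      · exact Or.inl h
      · exact Or.inr (hc.trans h)
    · exact Or.inr (hQ.trans balance_sum_right)
  · exact Or.inr (hP.trans balance_sum_left)

/-- the gap property is inherited by direct sums -/
theorem gap_lex [Nonempty P] [Nonempty Q] {c : ℝ} (hP : InD P ∨ c ≤ balance P)
    (hQ : InD Q ∨ c ≤ balance Q) : InD (P ⊕ₗ Q) ∨ c ≤ balance (P ⊕ₗ Q) := by
  rcases hP with hP | hP
  · rcases hQ with hQ | hQ
    · exact Or.inl (InD.sum P Q _ hP hQ ⟨OrderIso.refl _⟩)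
    · exact Or.inr (hQ.trans balance_lex_right)
  · exact Or.inr (hP.trans balance_lex_left)

end Pool.Agent.H931R3.Bal
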