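import Mathlib
import Pool.Agent.H34.L.H931R3.Bal11
import Pool.Agent.H34.L.H931R3.Bal12

/-! Reduction to irreducible posets. -/

open Finset

namespace Pool.Agent.H931R3.Bal

open Pool.Agent.H13R3.WB

/-- `P` is connected, is not a direct sum, and all its nonempty proper autonomous subsets lie in
the class `𝒟`. -/
def Irreducible (P : Type) [PartialOrder P] : Prop :=
  (∀ (A B : Type) [PartialOrder A] [PartialOrder B] [Nonempty A] [Nonempty B],
    IsEmpty (P ≃o (A ⊕ B))) ∧
  (∀ (A B : Type) [PartialOrder A] [PartialOrder B] [Nonempty A] [Nonempty B],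
    IsEmpty (P ≃o (A ⊕ₗ B))) ∧
  (∀ M : Set P, M.Nonempty → M ≠ Set.univ → Autonomous M → InD M)

lemma card_of_iso_sum {P A B : Type} [Fintype P] [Finite A] [Finite B] (e : P ≃ (A ⊕ B)) :
    Fintype.card P = Nat.card A + Nat.card B := by
  rw [← Nat.card_eq_fintype_card, Nat.card_congr e, Nat.card_sum]

theorem reduction {c : ℝ} (hc : c ≤ 8 / 21)
    (h : ∀ (P : Type) [Fintype P] [PartialOrder P] [Nonempty P], Irreducible P →
      InD P ∨ c ≤ balance P) :
    ∀ (P : Type) [Fintype P] [PartialOrder P] [Nonempty P], InD P ∨ c ≤ balance P := by
  have key : ∀ (N : ℕ) (P : Type) [Fintype P] [PartialOrder P] [Nonempty P],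
      Fintype.card P = N → InD P ∨ c ≤ balance P := by
    intro N
    induction N using Nat.strong_induction_on with
    | _ N ih =>
      intro P _ _ _ hP
      by_cases hI : Irreducible P
      · exact h P hI
      unfold Irreducible at hI
      by_cases h1 : ∃ (A B : Type) (_ : PartialOrder A) (_ : PartialOrder B), Nonempty A ∧
          Nonempty B ∧ Nonempty (P ≃o (A ⊕ B))
      · obtain ⟨A, B, _, _, hA, hB, ⟨e⟩⟩ := h1
        have fA : Finite A := Finite.of_injective (fun x : A => e.symm (Sum.inl x))
          (fun a b h => Sum.inl_injective (e.symm.injective h))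
        have fB : Finite B := Finite.of_injective (fun x : B => e.symm (Sum.inr x))
          (fun a b h => Sum.inr_injective (e.symm.injective h))
        have := Fintype.ofFinite A
        have := Fintype.ofFinite B
        have hcard := card_of_iso_sum e.toEquiv
        rw [Nat.card_eq_fintype_card, Nat.card_eq_fintype_card] at hcard
        have pA : 0 < Fintype.card A := Fintype.card_pos
        have pB : 0 < Fintype.card B := Fintype.card_pos
        have g1 := ih (Fintype.card A) (by omega) A rfl
        have g2 := ih (Fintype.card B) (by omega) B rfl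
        rcases gap_sum hc g1 g2 with h3 | h3
        · exact Or.inl (InD.iso h3 e.symm)
        · exact Or.inr (h3.trans (balance_iso e.symm))
      by_cases h2 : ∃ (A B : Type) (_ : PartialOrder A) (_ : PartialOrder B), Nonempty A ∧
          Nonempty B ∧ Nonempty (P ≃o (A ⊕ₗ B))
      · obtain ⟨A, B, _, _, hA, hB, ⟨e⟩⟩ := h2
        have fA : Finite A := Finite.of_injective (fun x : A => e.symm (toLex (Sum.inl x)))
          (fun a b h => Sum.inl_injective (toLex.injective (e.symm.injective h)))
        have fB : Finite B := Finite.of_injective (fun x : B => e.symm (toLex (Sum.inr x)))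
          (fun a b h => Sum.inr_injective (toLex.injective (e.symm.injective h)))
        have := Fintype.ofFinite A
        have := Fintype.ofFinite B
        have hcard := card_of_iso_sum (A := A) (B := B) e.toEquiv
        rw [Nat.card_eq_fintype_card, Nat.card_eq_fintype_card] at hcard
        have pA : 0 < Fintype.card A := Fintype.card_pos
        have pB : 0 < Fintype.card B := Fintype.card_pos
        have g1 := ih (Fintype.card A) (by omega) A rfl
        have g2 := ih (Fintype.card B) (by omega) B rfl
        have hne : Nonempty (A ⊕ₗ B) := ⟨toLex (Sum.inl hA.some)⟩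
        rcases gap_lex g1 g2 with h3 | h3
        · exact Or.inl (InD.iso h3 e.symm)
        · exact Or.inr (h3.trans (balance_iso e.symm))
      have h3 : ∃ M : Set P, M.Nonempty ∧ M ≠ Set.univ ∧ Autonomous M ∧ ¬ InD M := by
        by_contra hcon
        push Not at hcon
        apply hI
        refine ⟨?_, ?_, ?_⟩
        · intro A B _ _ hA hB
          by_contra h4
          rw [not_isEmpty_iff] at h4
          exact h1 ⟨A, B, _, _, hA, hB, h4⟩
        · intro A B _ _ hA hB
          by_contra h4
          rw [not_isEmpty_iff] at h4
          exact h2 ⟨A, B, _, _, hA, hB, h4⟩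
        · intro M m1 m2 m3
          exact hcon M m1 m2 m3
      obtain ⟨M, m1, m2, m3, m4⟩ := h3
      have fM : Finite M := inferInstance
      have := Fintype.ofFinite M
      have nM : Nonempty M := m1.to_subtype
      have hlt : Fintype.card M < Fintype.card P := by
        rw [← Nat.card_eq_fintype_card, ← Nat.card_eq_fintype_card]
        have h5 : M ⊂ Set.univ := Set.ssubset_univ_iff.2 m2
        have h6 := Set.ncard_lt_ncard h5 (Set.finite_univ)
        rw [Set.ncard_univ] at h6
        exact h6
      rcases ih (Fintype.card M) (by omega) M rfl with h6 | h6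
      · exact absurd h6 m4
      · exact Or.inr (h6.trans (balance_autonomous m3))
  intro P _ _ _
  exact key _ P rfl

/-- Series-parallel posets: the smallest class of posets closed under isomorphism that contains the
one-element poset and is closed under disjoint sums and direct (ordinal) sums. -/
inductive SeriesParallel : (P : Type) → [PartialOrder P] → Prop
  | one (P : Type) [PartialOrder P] : Nonempty (P ≃o Fin 1) → SeriesParallel P
  | disj (P Q R : Type) [PartialOrder P] [PartialOrder Q] [PartialOrder R] :
      SeriesParallel P → SeriesParallel Q → Nonempty (R ≃o (P ⊕ Q)) → SeriesParallel R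
  | direct (P Q R : Type) [PartialOrder P] [PartialOrder Q] [PartialOrder R] :
      SeriesParallel P → SeriesParallel Q → Nonempty (R ≃o (P ⊕ₗ Q)) → SeriesParallel R

/-- no base poset -/
def noBase (P : Type) [PartialOrder P] : Prop := False

lemma SeriesParallel.built {P : Type} [PartialOrder P] (h : SeriesParallel P) :
    Built noBase P := by
  induction h with
  | one P e => exact Built.one P e
  | disj P Q R _ _ e i1 i2 => exact Built.disj P Q R i1 i2 e
  | direct P Q R _ _ e i1 i2 => exact Built.direct P Q R i1 i2 e

lemma built_sp {P : Type} [PartialOrder P] (h : Built noBase P) : SeriesParallel P := by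
  induction h with
  | of P h => exact absurd h (fun h => h)
  | one P e => exact SeriesParallel.one P e
  | disj P Q R _ _ e i1 i2 => exact SeriesParallel.disj P Q R i1 i2 e
  | direct P Q R _ _ e i1 i2 => exact SeriesParallel.direct P Q R i1 i2 e

theorem sp_gap (R : Type) [Fintype R] [PartialOrder R] (h : SeriesParallel R) :
    InD R ∨ 8 / 21 ≤ balance R :=
  (Built.gap le_rfl (fun _ _ _ hP => absurd hP (fun h => h)) h.built).2

theorem sp_sharp : SeriesParallel X7 ∧ ¬ InD X7 ∧ balance X7 = 8 / 21 := by
  have h1 : SeriesParallel X7 := built_sp (X7_built noBase)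
  refine ⟨h1, X7_not_inD, le_antisymm balance_X7 ?_⟩
  rcases sp_gap X7 h1 with h | h
  · exact absurd h X7_not_inD
  · exact h

end Pool.Agent.H931R3.Bal
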