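import Mathlib
import Pool.Agent.H34.L.H931R3.Bal13

/-! Minimal balance constants of series-parallel posets of given width. -/

open Finset

namespace Pool.Agent.H931R3.Bal

open Pool.Agent.H13R3.WB

/-- `P` has width `w` -/
def HasWidth (P : Type) [PartialOrder P] (w : ℕ) : Prop :=
  (∃ s : Finset P, IsAntichain (· ≤ ·) (s : Set P) ∧ s.card = w) ∧
    ∀ s : Finset P, IsAntichain (· ≤ ·) (s : Set P) → s.card ≤ w

/-- infimum of the balance constants of the series-parallel posets of width `w` -/
noncomputable def dSP (w : ℕ) : ℝ :=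
  sInf {d : ℝ | ∃ (P : Type) (_ : Fintype P) (_ : PartialOrder P), SeriesParallel P ∧
    HasWidth P w ∧ balance P = d}

lemma exists_anti (w : ℕ) : ∃ (P : Type) (_ : Fintype P) (_ : PartialOrder P),
    SeriesParallel P ∧ Fintype.card P = w + 1 ∧ ∀ x y : P, x ≤ y → x = y := by
  induction w with
  | zero =>
    exact ⟨Fin 1, inferInstance, inferInstance, SeriesParallel.one _ ⟨OrderIso.refl _⟩, by simp,
      fun x y _ => Subsingleton.elim x y⟩
  | succ w ih =>
    obtain ⟨P, _, _, h1, h2, h3⟩ := ih
    refine ⟨P ⊕ Fin 1, inferInstance, inferInstance,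
      SeriesParallel.disj P (Fin 1) _ h1 (SeriesParallel.one _ ⟨OrderIso.refl _⟩)
        ⟨OrderIso.refl _⟩, by rw [Fintype.card_sum, h2]; simp, ?_⟩
    intro x y h
    rcases x with x | x <;> rcases y with y | y
    · rw [h3 x y (Sum.inl_le_inl_iff.1 h)]
    · exact absurd h Sum.not_inl_le_inr
    · exact absurd h Sum.not_inr_le_inl
    · rw [Subsingleton.elim x y]

lemma exists_width (w : ℕ) (hw : 1 ≤ w) : ∃ (P : Type) (_ : Fintype P) (_ : PartialOrder P),
    SeriesParallel P ∧ HasWidth P w := by
  classical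
  obtain ⟨P, i1, i2, h1, h2, h3⟩ := exists_anti (w - 1)
  refine ⟨P, i1, i2, h1, ⟨univ, ?_, ?_⟩, ?_⟩
  · intro x _ y _ hxy h
    exact hxy (h3 x y h)
  · rw [card_univ, h2]; omega
  · intro s _
    have := card_le_univ s
    omega

lemma InD_no3 {P : Type} [PartialOrder P] (h : InD P) : ∀ a b c : P, ¬ a ≤ b → ¬ b ≤ a →
    ¬ a ≤ c → ¬ c ≤ a → ¬ b ≤ c → ¬ c ≤ b → False := by
  induction h with
  | one P e =>
    obtain ⟨e⟩ := e
    intro a b c h1
    exact absurd (e.le_iff_le.mp (by rw [Subsingleton.elim (e a) (e b)])) h1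
  | three P e =>
    obtain ⟨e⟩ := e
    have key : ∀ a b c : EE, a ≤ b ∨ b ≤ a ∨ a ≤ c ∨ c ≤ a ∨ b ≤ c ∨ c ≤ b := by
      decide +kernel
    intro a b c h1 h2 h3 h4 h5 h6
    rcases key (e a) (e b) (e c) with h | h | h | h | h | h
    · exact h1 (by simpa using h)
    · exact h2 (by simpa using h)
    · exact h3 (by simpa using h)
    · exact h4 (by simpa using h)
    · exact h5 (by simpa using h)
    · exact h6 (by simpa using h)
  | sum P Q R _ _ e ihP ihQ =>
    obtain ⟨e⟩ := e
    have key : ∀ a b c : P ⊕ₗ Q, ¬ a ≤ b → ¬ b ≤ a →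
        ¬ a ≤ c → ¬ c ≤ a → ¬ b ≤ c → ¬ c ≤ b → False := by
      intro a b c h1 h2 h3 h4 h5 h6
      rcases a with a | a
      · rcases b with b | b
        · rcases c with c | c
          · exact ihP a b c (fun h => h1 (Sum.Lex.inl h)) (fun h => h2 (Sum.Lex.inl h))
              (fun h => h3 (Sum.Lex.inl h)) (fun h => h4 (Sum.Lex.inl h))
              (fun h => h5 (Sum.Lex.inl h)) (fun h => h6 (Sum.Lex.inl h))
          · exact h3 (Sum.Lex.sep _ _)
        · exact h1 (Sum.Lex.sep _ _)
      · rcases b with b | b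
        · exact h2 (Sum.Lex.sep _ _)
        · rcases c with c | c
          · exact h4 (Sum.Lex.sep _ _)
          · exact ihQ a b c (fun h => h1 (Sum.Lex.inr h)) (fun h => h2 (Sum.Lex.inr h))
              (fun h => h3 (Sum.Lex.inr h)) (fun h => h4 (Sum.Lex.inr h))
              (fun h => h5 (Sum.Lex.inr h)) (fun h => h6 (Sum.Lex.inr h))
    intro a b c h1 h2 h3 h4 h5 h6
    exact key (e a) (e b) (e c) (by simpa using h1) (by simpa using h2) (by simpa using h3)
      (by simpa using h4) (by simpa using h5) (by simpa using h6)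

lemma InD_width_le {P : Type} [PartialOrder P] (h : InD P) (s : Finset P)
    (hs : IsAntichain (· ≤ ·) (s : Set P)) : s.card ≤ 2 := by
  by_contra hc
  obtain ⟨a, b, c, ha, hb, hc', hab, hac, hbc⟩ := Finset.two_lt_card_iff.1 (not_le.1 hc)
  exact InD_no3 h a b c (hs ha hb hab) (hs hb ha hab.symm) (hs ha hc' hac) (hs hc' ha hac.symm)
    (hs hb hc' hbc) (hs hc' hb hbc.symm)

lemma balance_nonneg {P : Type} [Fintype P] [PartialOrder P] [Nonempty P] : 0 ≤ balance P := by
  obtain ⟨x⟩ := (inferInstance : Nonempty P)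
  have := le_balance x x
  rw [prob_eq rfl, pr_self] at this
  simpa using this

lemma balance_chain {P : Type} [Fintype P] [PartialOrder P] [Nonempty P]
    (h : ∀ x y : P, x ≤ y ∨ y ≤ x) : balance P = 0 := by
  apply le_antisymm _ balance_nonneg
  have : Nonempty (P × P) := inferInstance
  unfold balance
  apply ciSup_le
  rintro ⟨x, y⟩
  simp only
  rw [prob_eq rfl, prob_eq rfl]
  rcases eq_or_ne x y with hxy | hxy
  · rw [hxy, pr_self]; simp
  · rcases h x y with h | h
    · refine (min_le_right _ _).trans ?_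
      rw [pr_zero_of_lt (lt_of_le_of_ne h hxy)]
    · refine (min_le_left _ _).trans ?_
      rw [pr_zero_of_lt (lt_of_le_of_ne h hxy.symm)]

lemma balance_EE_ge : 1 / 3 ≤ balance EE := by
  have h := le_balance (P := EE) (Sum.inl 0) (Sum.inr 0)
  have hc : Fintype.card EE = 3 := by simp
  rw [prob_eq hc, prob_eq hc, cntLt, cntLt] at h
  have e1 : #{f : EE ≃ Fin 3 | (∀ a b : EE, a ≤ b → f a ≤ f b) ∧ f (Sum.inl 0) < f (Sum.inr 0)} = 2 := by
    decide +kernel
  have e2 : #{f : EE ≃ Fin 3 | (∀ a b : EE, a ≤ b → f a ≤ f b) ∧ f (Sum.inr 0) < f (Sum.inl 0)} = 1 := by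
    decide +kernel
  rw [e1, e2] at h
  norm_num at h
  linarith

lemma balance_EE_le : balance EE ≤ 1 / 3 := by
  have hc : Fintype.card EE = 3 := by simp
  have : Nonempty (EE × EE) := ⟨(Sum.inr 0, Sum.inr 0)⟩
  unfold balance
  apply ciSup_le
  rintro ⟨p, q⟩
  simp only
  rw [prob_eq hc, prob_eq hc]
  exact minE p q

lemma InD_third {P : Type} [PartialOrder P] (h : InD P) : ∀ [Fintype P],
    (∀ x y : P, x ≤ y ∨ y ≤ x) ∨ 1 / 3 ≤ balance P := by
  induction h with
  | one P e =>
    intro _
    obtain ⟨e⟩ := e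
    left
    intro x y
    left
    exact e.le_iff_le.mp (by rw [Subsingleton.elim (e x) (e y)])
  | three P e =>
    intro _
    obtain ⟨e⟩ := e
    right
    exact balance_EE_ge.trans (balance_iso e.symm)
  | sum P Q R hP hQ e ihP ihQ =>
    intro _
    obtain ⟨e⟩ := e
    have fP : Finite P := Finite.of_injective (fun x : P => e.symm (toLex (Sum.inl x)))
      (fun a b h => Sum.inl_injective (toLex.injective (e.symm.injective h)))
    have fQ : Finite Q := Finite.of_injective (fun x : Q => e.symm (toLex (Sum.inr x)))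
      (fun a b h => Sum.inr_injective (toLex.injective (e.symm.injective h)))
    have := Fintype.ofFinite P
    have := Fintype.ofFinite Q
    have nP := InD.nonempty hP
    have nQ := InD.nonempty hQ
    have nS : Nonempty (P ⊕ₗ Q) := ⟨toLex (Sum.inl nP.some)⟩
    rcases ihP with h1 | h1
    · rcases ihQ with h2 | h2
      · left
        intro x y
        rw [← e.le_iff_le, ← e.le_iff_le (x := y)]
        rcases e x with a | a <;> rcases e y with b | b
        · rcases h1 a b with h | h
          · exact Or.inl (Sum.Lex.inl h)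
          · exact Or.inr (Sum.Lex.inl h)
        · exact Or.inl (Sum.Lex.sep _ _)
        · exact Or.inr (Sum.Lex.sep _ _)
        · rcases h2 a b with h | h
          · exact Or.inl (Sum.Lex.inr h)
          · exact Or.inr (Sum.Lex.inr h)
      · exact Or.inr ((h2.trans balance_lex_right).trans (balance_iso e.symm))
    · exact Or.inr ((h1.trans balance_lex_left).trans (balance_iso e.symm))

lemma total_of_width_one {P : Type} [PartialOrder P] (h : HasWidth P 1) :
    ∀ x y : P, x ≤ y ∨ y ≤ x := by
  classical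
  intro x y
  by_contra hc
  push Not at hc
  have hne : x ≠ y := fun h => hc.1 h.le
  have := h.2 {x, y} (by
    intro a ha b hb hab hle
    simp only [coe_insert, coe_singleton, Set.mem_insert_iff, Set.mem_singleton_iff] at ha hb
    rcases ha with rfl | rfl <;> rcases hb with rfl | rfl
    · exact hab rfl
    · exact hc.1 hle
    · exact hc.2 hle
    · exact hab rfl)
  rw [card_pair hne] at this
  omega

lemma not_total_of_width {P : Type} [PartialOrder P] {w : ℕ} (hw : 2 ≤ w) (h : HasWidth P w) :
    ¬ ∀ x y : P, x ≤ y ∨ y ≤ x := by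
  intro ht
  obtain ⟨s, hs, hc⟩ := h.1
  obtain ⟨a, b, ha, hb, hab⟩ := Finset.one_lt_card_iff.1 (show 1 < s.card by omega)
  rcases ht a b with h | h
  · exact hs ha hb hab h
  · exact hs hb ha hab.symm h

lemma SeriesParallel.nonempty {P : Type} [Fintype P] [PartialOrder P] (h : SeriesParallel P) :
    Nonempty P :=
  (Built.gap (c := 8 / 21) le_rfl (fun _ _ _ hP => absurd hP (fun h => h)) h.built).1

lemma sp_width {P : Type} [Fintype P] [PartialOrder P] (h : SeriesParallel P) {w : ℕ}
    (hw : 3 ≤ w) (h2 : HasWidth P w) : 8 / 21 ≤ balance P := by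
  rcases sp_gap P h with h3 | h3
  · obtain ⟨s, hs, hc⟩ := h2.1
    have := InD_width_le h3 s hs
    omega
  · exact h3

/-- three chains covering the extremal poset -/
def chainMap : X7 → Fin 3
  | Sum.inr _ => 2
  | Sum.inl z => match ofLex z with
    | Sum.inl (Sum.inl _) => 0
    | Sum.inl (Sum.inr _) => 1
    | Sum.inr (Sum.inl _) => 0
    | Sum.inr (Sum.inr _) => 1

lemma chainMap_comp (p q : X7) (h : chainMap p = chainMap q) : p ≤ q ∨ q ≤ p := by
  rcases p with p | p <;> rcases q with q | q
  · rcases p with (p | p) | (p | p) <;> rcases q with (q | q) | (q | q)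
    · rcases le_total p q with h | h
      · exact Or.inl (Sum.inl_le_inl_iff.2 (Sum.Lex.inl (Sum.inl_le_inl_iff.2 h)))
      · exact Or.inr (Sum.inl_le_inl_iff.2 (Sum.Lex.inl (Sum.inl_le_inl_iff.2 h)))
    · exact absurd h (by decide +revert)
    · exact Or.inl (Sum.inl_le_inl_iff.2 (Sum.Lex.sep _ _))
    · exact absurd h (by decide +revert)
    · exact absurd h (by decide +revert)
    · obtain rfl : p = q := Subsingleton.elim _ _
      exact Or.inl le_rfl
    · exact absurd h (by decide +revert)
    · exact Or.inl (Sum.inl_le_inl_iff.2 (Sum.Lex.sep _ _))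
    · exact Or.inr (Sum.inl_le_inl_iff.2 (Sum.Lex.sep _ _))
    · exact absurd h (by decide +revert)
    · rcases le_total p q with h | h
      · exact Or.inl (Sum.inl_le_inl_iff.2 (Sum.Lex.inr (Sum.inl_le_inl_iff.2 h)))
      · exact Or.inr (Sum.inl_le_inl_iff.2 (Sum.Lex.inr (Sum.inl_le_inl_iff.2 h)))
    · exact absurd h (by decide +revert)
    · exact absurd h (by decide +revert)
    · exact Or.inr (Sum.inl_le_inl_iff.2 (Sum.Lex.sep _ _))
    · exact absurd h (by decide +revert)
    · obtain rfl : p = q := Subsingleton.elim _ _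
      exact Or.inl le_rfl
  · exfalso
    rcases p with (p | p) | (p | p) <;> exact absurd h (by decide +revert)
  · exfalso
    rcases q with (q | q) | (q | q) <;> exact absurd h (by decide +revert)
  · obtain rfl : p = q := Subsingleton.elim _ _
    exact Or.inl le_rfl

end Pool.Agent.H931R3.Bal
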